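import Pool.Agent.N591.SR.Good

/-!
# The number of stabilizer-like functions
-/

open Finset

namespace Pool.Agent.N591.SR

variable {ι : Type} [Fintype ι] [DecidableEq ι]

lemma IsE.pow_four {ψ : Bt ι → ℂ} (hψ : ψ ≠ 0) {a b : Bt ι} {μ : ℂ} (h : IsE ψ a b μ) :
    μ ^ 4 = 1 := by
  have h1 := h.add h
  rw [add_self_bt, add_self_bt] at h1
  obtain ⟨x, hx⟩ := exists_ne hψ
  have h2 := h1 x
  rw [zero_dotProduct, csg_zero, add_zero, one_mul] at h2
  have h3 : csg (b ⬝ᵥ a) * μ * μ = 1 := by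
    have : (csg (b ⬝ᵥ a) * μ * μ - 1) * ψ x = 0 := by linear_combination -h2
    rcases mul_eq_zero.1 this with h4 | h4
    · exact sub_eq_zero.1 h4
    · exact absurd h4 hx
  have h4 := csg_mul_self (b ⬝ᵥ a)
  have h5 : μ * μ = csg (b ⬝ᵥ a) := by
    calc μ * μ = (csg (b ⬝ᵥ a) * csg (b ⬝ᵥ a)) * (μ * μ) := by rw [h4, one_mul]
      _ = csg (b ⬝ᵥ a) * (csg (b ⬝ᵥ a) * μ * μ) := by ring
      _ = csg (b ⬝ᵥ a) := by rw [h3, mul_one]
  calc μ ^ 4 = (μ * μ) * (μ * μ) := by ring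
    _ = 1 := by rw [h5, h4]

/-- the four phases -/
noncomputable def ph (j : Fin 4) : ℂ := Complex.I ^ (j : ℕ)

lemma exists_ph {μ : ℂ} (h : μ ^ 4 = 1) : ∃ j, ph j = μ := by
  have h1 : (μ - 1) * ((μ + 1) * ((μ - Complex.I) * (μ + Complex.I))) = 0 := by
    have hI := Complex.I_sq
    linear_combination h - (μ ^ 2 - 1) * hI
  rcases mul_eq_zero.1 h1 with h2 | h2
  · exact ⟨0, by simp [ph]; linear_combination -h2⟩
  rcases mul_eq_zero.1 h2 with h3 | h3
  · exact ⟨2, by simp [ph]; linear_combination -h3⟩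
  rcases mul_eq_zero.1 h3 with h4 | h4
  · exact ⟨1, by simp [ph]; linear_combination -h4⟩
  · refine ⟨3, ?_⟩
    have : ph 3 = - Complex.I := by
      simp [ph, Complex.I_pow_three]
    rw [this]
    linear_combination -h4

/-- codes: a family of `2 n` Pauli operators with phases -/
abbrev Code (ι : Type) : Type := (ι ⊕ ι) → ((Bt ι × Bt ι) × Fin 4)

instance instCode {ι : Type} [Fintype ι] [DecidableEq ι] : Fintype (Code ι) :=
  Pi.instFintype

/-- `φ` satisfies the code `c` -/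
def Sat (c : Code ι) (φ : Bt ι → ℂ) : Prop :=
  φ ≠ 0 ∧ Good φ ∧ AddSubgroup.closure (Set.range fun j => (c j).1) = Lg φ ∧
    ∀ j, IsE φ (c j).1.1 (c j).1.2 (ph (c j).2)

/-- a subgroup of `F_2^{2n}` is generated by `2n` elements -/
lemma exists_gens (L : AddSubgroup (Bt ι × Bt ι)) :
    ∃ w : ι ⊕ ι → Bt ι × Bt ι, AddSubgroup.closure (Set.range w) = L := by
  let L' : Submodule (ZMod 2) (Bt ι × Bt ι) := AddSubgroup.toZModSubmodule 2 L
  obtain ⟨g, hg⟩ := LinearMap.exists_leftInverse_of_injective L'.subtype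
    (Submodule.ker_subtype L')
  let b : Module.Basis (ι ⊕ ι) (ZMod 2) (Bt ι × Bt ι) :=
    (Pi.basisFun (ZMod 2) ι).prod (Pi.basisFun (ZMod 2) ι)
  refine ⟨fun j => (g (b j) : Bt ι × Bt ι), le_antisymm ?_ ?_⟩
  · rw [AddSubgroup.closure_le]
    rintro _ ⟨j, rfl⟩
    exact (g (b j)).2
  · intro p hp
    have h1 : g p = ⟨p, hp⟩ := by
      have := LinearMap.congr_fun hg (⟨p, hp⟩ : L')
      simpa using this
    have h2 : p = ∑ j, (b.repr p j) • (g (b j) : Bt ι × Bt ι) := by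
      have h3 := b.sum_repr p
      have h4 : g p = ∑ j, (b.repr p j) • g (b j) := by
        conv_lhs => rw [← h3]
        rw [map_sum]
        simp
      have h5 := congrArg (fun y : L' => (y : Bt ι × Bt ι)) h4
      simp only [h1] at h5
      refine h5.trans ?_
      rw [Submodule.coe_sum]
      rfl
    rw [h2]
    apply AddSubgroup.sum_mem
    intro j _
    rcases zmod2_cases (b.repr p j) with h | h
    · rw [h, zero_smul]; exact AddSubgroup.zero_mem _
    · rw [h, one_smul]; exact AddSubgroup.subset_closure ⟨j, rfl⟩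

lemma exists_code {φ : Bt ι → ℂ} (h0 : φ ≠ 0) (h : Good φ) : ∃ c : Code ι, Sat c φ := by
  obtain ⟨w, hw⟩ := exists_gens (Lg φ)
  have h1 : ∀ j, ∃ k : Fin 4, IsE φ (w j).1 (w j).2 (ph k) := by
    intro j
    have h2 : w j ∈ Lg φ := by
      rw [← hw]; exact AddSubgroup.subset_closure ⟨j, rfl⟩
    obtain ⟨μ, hμ⟩ := h2
    obtain ⟨k, hk⟩ := exists_ph (hμ.pow_four h0)
    exact ⟨k, by rw [hk]; exact hμ⟩
  choose k hk using h1
  exact ⟨fun j => (w j, k j), h0, h, hw, hk⟩

/-- uniqueness up to scalars -/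
lemma sat_unique {c : Code ι} {φ ρ : Bt ι → ℂ} (h1 : Sat c φ) (h2 : Sat c ρ) :
    ∃ lam : ℂ, φ = lam • ρ := by
  obtain ⟨hφ0, hφG, hφL, hφE⟩ := h1
  obtain ⟨hρ0, hρG, hρL, hρE⟩ := h2
  have common : ∀ p ∈ Lg ρ, ∃ μ, IsE φ p.1 p.2 μ ∧ IsE ρ p.1 p.2 μ := by
    intro p hp
    rw [← hρL] at hp
    induction hp using AddSubgroup.closure_induction with
    | mem x hx =>
      obtain ⟨j, rfl⟩ := hx
      exact ⟨_, hφE j, hρE j⟩
    | zero => exact ⟨1, fun x => by simp [csg_zero], fun x => by simp [csg_zero]⟩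
    | add x y _ _ hx hy =>
      obtain ⟨μ, hx1, hx2⟩ := hx
      obtain ⟨μ', hy1, hy2⟩ := hy
      exact ⟨_, hx1.add hy1, hx2.add hy2⟩
    | neg x _ hx =>
      have e : ∀ y : Bt ι, -y = y := by
        intro y
        rw [neg_eq_iff_add_eq_zero, add_self_bt]
      obtain ⟨μ, hx1, hx2⟩ := hx
      refine ⟨μ, ?_, ?_⟩
      · rw [Prod.fst_neg, Prod.snd_neg, e, e]; exact hx1
      · rw [Prod.fst_neg, Prod.snd_neg, e, e]; exact hx2
  obtain ⟨x0, hx0⟩ := exists_ne hρ0
  refine ⟨φ x0 / ρ x0, ?_⟩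
  by_contra hne
  -- the difference
  set δ : Bt ι → ℂ := fun x => φ x - (φ x0 / ρ x0) * ρ x with hδ
  have hδ0 : δ x0 = 0 := by
    simp only [hδ]; field_simp; ring
  have hδne : δ ≠ 0 := by
    intro h
    apply hne
    funext x
    have := congrFun h x
    simp only [hδ, Pi.zero_apply] at this
    simp only [Pi.smul_apply, smul_eq_mul]
    linear_combination this
  obtain ⟨x, hx⟩ := exists_ne hδne
  have hδE : ∀ p ∈ Lg ρ, ∃ μ, IsE δ p.1 p.2 μ ∧ IsE ρ p.1 p.2 μ := by
    intro p hp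
    obtain ⟨μ, hμ1, hμ2⟩ := common p hp
    refine ⟨μ, fun y => ?_, hμ2⟩
    have e1 := hμ1 y
    have e2 := hμ2 y
    simp only [hδ]
    linear_combination e1 - (φ x0 / ρ x0) * e2
  -- the two projections
  let f : Lg ρ →+ Bt ι := (AddMonoidHom.fst (Bt ι) (Bt ι)).comp (Lg ρ).subtype
  let g : f.ker →+ Bt ι :=
    (AddMonoidHom.snd (Bt ι) (Bt ι)).comp ((Lg ρ).subtype.comp f.ker.subtype)
  have hg : Function.Injective g := by
    rw [injective_iff_map_eq_zero]
    intro p hp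
    apply Subtype.ext
    apply Subtype.ext
    apply Prod.ext
    · exact p.2
    · exact hp
  have hkg : Nat.card f.ker = Nat.card g.range :=
    Nat.card_congr (AddMonoidHom.ofInjective hg).toEquiv
  have hc := card_ker_range f
  -- the annihilator of K
  let Kp : AddSubgroup (Bt ι) :=
    { carrier := {u | ∀ b ∈ g.range, b ⬝ᵥ u = 0}
      zero_mem' := by intro b _; simp
      add_mem' := by
        intro u v hu hv b hb
        rw [dotProduct_add, hu b hb, hv b hb, add_zero]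
      neg_mem' := by
        intro u hu b hb
        rw [dotProduct_neg, hu b hb, neg_zero] }
  have hKp : Nat.card Kp * Nat.card g.range ≤ 2 ^ Fintype.card ι :=
    card_orth Kp g.range (fun a ha b hb => ha b hb)
  have hle : f.range ≤ Kp := by
    rintro _ ⟨p, rfl⟩ _ ⟨r, rfl⟩
    have h3 := Lg_iso hρ0 _ p.2 _ (r : Lg ρ).2
    have hr : ((r : Lg ρ) : Bt ι × Bt ι).1 = 0 := r.2
    rw [hr, dotProduct_zero] at h3
    exact h3.symm
  have heq : f.range = Kp := by
    apply AddSubgroup.eq_of_le_of_card_ge hle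
    have h5 : Nat.card Kp * Nat.card g.range ≤ Nat.card f.range * Nat.card g.range := by
      calc Nat.card Kp * Nat.card g.range ≤ 2 ^ Fintype.card ι := hKp
        _ ≤ Nat.card (Lg ρ) := hρG
        _ = Nat.card f.range * Nat.card g.range := by rw [hc, hkg]
    exact Nat.le_of_mul_le_mul_right h5 Nat.card_pos
  -- `x + x0` is in the annihilator
  have hmem : x + x0 ∈ Kp := by
    rintro _ ⟨r, rfl⟩
    have hr : ((r : Lg ρ) : Bt ι × Bt ι).1 = 0 := r.2
    obtain ⟨μ, e1, e2⟩ := hδE _ (r : Lg ρ).2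
    rw [hr] at e1 e2
    have e1' := e1 x
    have e2' := e2 x0
    rw [add_zero] at e1' e2'
    show ((r : Lg ρ) : Bt ι × Bt ι).2 ⬝ᵥ (x + x0) = 0
    set b := ((r : Lg ρ) : Bt ι × Bt ι).2
    have i1 : csg (b ⬝ᵥ x) = μ := by
      have : (csg (b ⬝ᵥ x) - μ) * δ x = 0 := by linear_combination e1'
      rcases mul_eq_zero.1 this with h4 | h4
      · exact sub_eq_zero.1 h4
      · exact absurd h4 hx
    have i2 : csg (b ⬝ᵥ x0) = μ := by
      have : (csg (b ⬝ᵥ x0) - μ) * ρ x0 = 0 := by linear_combination e2'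
      rcases mul_eq_zero.1 this with h4 | h4
      · exact sub_eq_zero.1 h4
      · exact absurd h4 hx0
    have i3 := csg_inj (i1.trans i2.symm)
    rw [dotProduct_add, i3]
    have : ∀ s : ZMod 2, s + s = 0 := by decide
    exact this _
  rw [← heq] at hmem
  obtain ⟨p, hp⟩ := hmem
  have hp' : (p : Bt ι × Bt ι).1 = x + x0 := hp
  obtain ⟨μ, e1, _⟩ := hδE _ p.2
  have e3 := e1 x0
  rw [hp', hδ0, mul_zero] at e3
  have e4 : x0 + (x + x0) = x := by
    rw [add_comm x x0, ← add_assoc, add_self_bt, zero_add]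
  rw [e4] at e3
  rcases mul_eq_zero.1 e3 with h4 | h4
  · exact absurd h4 (csg_ne _)
  · exact hx h4

open Classical in
/-- a representative for each code -/
noncomputable def rep (c : Code ι) : Bt ι → ℂ :=
  if h : ∃ φ, Sat c φ then h.choose else 0

/-- every good function is a multiple of a representative -/
lemma exists_rep {φ : Bt ι → ℂ} (h : Good φ) : ∃ (c : Code ι) (lam : ℂ), φ = lam • rep c := by
  by_cases h0 : φ = 0
  · exact ⟨fun _ => ((0, 0), 0), 0, by rw [h0, zero_smul]⟩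
  obtain ⟨c, hc⟩ := exists_code h0 h
  have hex : ∃ φ, Sat c φ := ⟨φ, hc⟩
  have hr : Sat c (rep c) := by
    unfold rep
    rw [dif_pos hex]
    exact hex.choose_spec
  obtain ⟨lam, hl⟩ := sat_unique hc hr
  exact ⟨c, lam, hl⟩

lemma card_code : Fintype.card (Code ι) =
    2 ^ ((2 * Fintype.card ι + 2) * (2 * Fintype.card ι)) := by
  have h1 : Fintype.card (Bt ι) = 2 ^ Fintype.card ι := by simp
  rw [Fintype.card_fun, Fintype.card_prod, Fintype.card_prod, h1, Fintype.card_fin,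
    Fintype.card_sum, pow_mul]
  have e1 : 2 ^ Fintype.card ι * 2 ^ Fintype.card ι * 4 = 2 ^ (2 * Fintype.card ι + 2) := by
    rw [pow_add, two_mul, pow_add]; norm_num
  rw [e1, two_mul (Fintype.card ι)]

end Pool.Agent.N591.SR
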