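import Mathlib

/-!
# Stabilizer rank: the definitions

`V d` is the space of `d` qubits, `Pauli d`, `Clifford d`, `Stab d` the Pauli operators, the
Clifford operators and the stabilizer states, `stabR` the stabilizer rank.
-/

open Matrix

namespace Pool.Agent.N591.SR

/-- The space `V_d = (ℂ²)^{⊗ d}`: the coordinate at `x` is the coefficient of
`e_{x 0} ⊗ ⋯ ⊗ e_{x (d - 1)}`. -/
abbrev V (d : ℕ) : Type := (Fin d → Fin 2) → ℂ

/-- Linear operators on `V_d`, as matrices in the standard basis. -/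
abbrev Op (d : ℕ) : Type := Matrix (Fin d → Fin 2) (Fin d → Fin 2) ℂ

/-- The group `P_1` generated by the three Pauli matrices in `GL₂(ℂ)`. -/
noncomputable def P1 : Subgroup (GL (Fin 2) ℂ) :=
  Subgroup.closure {g | (g : Matrix (Fin 2) (Fin 2) ℂ) = !![0, 1; 1, 0] ∨
    (g : Matrix (Fin 2) (Fin 2) ℂ) = !![0, -Complex.I; Complex.I, 0] ∨
    (g : Matrix (Fin 2) (Fin 2) ℂ) = !![1, 0; 0, -1]}

/-- The operator `g_0 ⊗ ⋯ ⊗ g_{d-1}` on `V_d`. -/
def tensorOp {d : ℕ} (g : Fin d → Matrix (Fin 2) (Fin 2) ℂ) : Op d :=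
  Matrix.of fun x y => ∏ i, g i (x i) (y i)

/-- `P_d`, the image of `P_1^{× d}` in `GL(V_d)`. -/
def Pauli (d : ℕ) : Set (Op d) :=
  {M | ∃ g : Fin d → GL (Fin 2) ℂ, (∀ i, g i ∈ P1) ∧
    M = tensorOp fun i => (g i : Matrix (Fin 2) (Fin 2) ℂ)}

/-- The Clifford operators: the normalizer of `P_d` in the unitary group `U(V_d)`. -/
def Clifford (d : ℕ) : Set (Op d) :=
  {U | U ∈ Matrix.unitaryGroup (Fin d → Fin 2) ℂ ∧
    (fun M : Op d => U * M * Uᴴ) '' Pauli d = Pauli d}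

/-- The stabilizer states: the vectors `U e_0^{⊗ d}` with `U` a Clifford operator. -/
def Stab (d : ℕ) : Set (V d) :=
  {ψ | ∃ U ∈ Clifford d, ψ = U.mulVec (Pi.single 0 1)}

/-- The stabilizer rank of `T ∈ V_d`. -/
noncomputable def stabR {d : ℕ} (T : V d) : ℕ :=
  sInf {r : ℕ | ∃ (α : Fin r → ℂ) (t : Fin r → V d), (∀ i, t i ∈ Stab d) ∧
    T = ∑ i, α i • t i}

/-- The tensor power `v^{⊗ d}` of `v ∈ ℂ²`. -/
def tpow (v : Fin 2 → ℂ) (d : ℕ) : V d := fun x => ∏ i, v (x i)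

end Pool.Agent.N591.SR
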