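import Pool.Agent.N591.SR.Lin

/-!
# Functions with a large group of Pauli symmetries
-/

open Finset

namespace Pool.Agent.N591.SR

/-- The complex sign. -/
noncomputable def csg (s : ZMod 2) : ℂ := ((sg s : ℝ) : ℂ)

lemma csg_zero : csg 0 = 1 := by simp [csg, sg_zero]

lemma csg_one : csg 1 = -1 := by simp [csg, sg_one]

lemma csg_add (s t : ZMod 2) : csg (s + t) = csg s * csg t := by
  simp [csg, sg_add]

lemma csg_mul_self (s : ZMod 2) : csg s * csg s = 1 := by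
  have := sg_mul_self s
  simp only [csg]
  exact_mod_cast this

lemma csg_ne (s : ZMod 2) : csg s ≠ 0 := by
  intro h
  have := csg_mul_self s
  rw [h] at this; simp at this

lemma csg_inj {s t : ZMod 2} (h : csg s = csg t) : s = t := by
  apply sg_inj
  simp only [csg] at h
  exact_mod_cast h

variable {ι κ : Type} [Fintype ι] [Fintype κ] [DecidableEq ι] [DecidableEq κ]

/-- `ψ` is an eigenfunction of the Pauli operator `(a, b)` with eigenvalue `μ`. -/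
def IsE (ψ : Bt ι → ℂ) (a b : Bt ι) (μ : ℂ) : Prop :=
  ∀ x, csg (b ⬝ᵥ x) * ψ (x + a) = μ * ψ x

lemma IsE.add {ψ : Bt ι → ℂ} {a b a' b' : Bt ι} {μ μ' : ℂ} (h : IsE ψ a b μ)
    (h' : IsE ψ a' b' μ') : IsE ψ (a + a') (b + b') (csg (b' ⬝ᵥ a) * μ * μ') := by
  intro x
  have h1 := h x
  have h2 := h' (x + a)
  rw [dotProduct_add, csg_add] at h2
  rw [add_dotProduct, csg_add, ← add_assoc]
  have h3 := csg_mul_self (b' ⬝ᵥ a)
  calc csg (b ⬝ᵥ x) * csg (b' ⬝ᵥ x) * ψ (x + a + a')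
      = (csg (b' ⬝ᵥ a) * csg (b' ⬝ᵥ a)) * csg (b ⬝ᵥ x) * csg (b' ⬝ᵥ x) * ψ (x + a + a') := by
        rw [h3]; ring
    _ = csg (b' ⬝ᵥ a) * csg (b ⬝ᵥ x) *
        (csg (b' ⬝ᵥ x) * csg (b' ⬝ᵥ a) * ψ (x + a + a')) := by ring
    _ = csg (b' ⬝ᵥ a) * csg (b ⬝ᵥ x) * (μ' * ψ (x + a)) := by rw [h2]
    _ = csg (b' ⬝ᵥ a) * μ' * (csg (b ⬝ᵥ x) * ψ (x + a)) := by ring
    _ = csg (b' ⬝ᵥ a) * μ' * (μ * ψ x) := by rw [h1]
    _ = csg (b' ⬝ᵥ a) * μ * μ' * ψ x := by ring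

/-- The group of symmetries of `ψ`. -/
def Lg (ψ : Bt ι → ℂ) : AddSubgroup (Bt ι × Bt ι) where
  carrier := {p | ∃ μ, IsE ψ p.1 p.2 μ}
  zero_mem' := ⟨1, fun x => by simp [csg_zero]⟩
  add_mem' := by
    rintro p q ⟨μ, h⟩ ⟨μ', h'⟩
    exact ⟨_, h.add h'⟩
  neg_mem' := by
    rintro p ⟨μ, h⟩
    have e : ∀ y : Bt ι, -y = y := by
      intro y
      rw [neg_eq_iff_add_eq_zero, add_self_bt]
    refine ⟨μ, ?_⟩
    rw [Prod.fst_neg, Prod.snd_neg, e, e]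
    exact h

lemma mem_Lg {ψ : Bt ι → ℂ} {a b : Bt ι} : (a, b) ∈ Lg ψ ↔ ∃ μ, IsE ψ a b μ := Iff.rfl

lemma IsE.ne_zero {ψ : Bt ι → ℂ} (hψ : ψ ≠ 0) {a b : Bt ι} {μ : ℂ} (h : IsE ψ a b μ) :
    μ ≠ 0 := by
  rintro rfl
  apply hψ
  funext x
  have h1 := h (x + a)
  rw [zero_mul, add_assoc, add_self_bt, add_zero] at h1
  rcases mul_eq_zero.1 h1 with h2 | h2
  · exact absurd h2 (csg_ne _)
  · exact h2

lemma exists_ne {ψ : Bt ι → ℂ} (hψ : ψ ≠ 0) : ∃ x, ψ x ≠ 0 := by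
  by_contra h
  push Not at h
  exact hψ (funext h)

/-- symmetries of a nonzero function commute -/
lemma Lg_iso {ψ : Bt ι → ℂ} (hψ : ψ ≠ 0) : ∀ p ∈ Lg ψ, ∀ q ∈ Lg ψ,
    p.2 ⬝ᵥ q.1 = q.2 ⬝ᵥ p.1 := by
  rintro ⟨a, b⟩ ⟨μ, h⟩ ⟨a', b'⟩ ⟨μ', h'⟩
  have h1 := h.add h'
  have h2 := h'.add h
  obtain ⟨x, hx⟩ := exists_ne hψ
  have h3 := h1 x
  have h4 := h2 x
  simp only at h1 h2 h3 h4 h h'
  rw [add_comm a' a, add_comm b' b] at h4
  rw [h3] at h4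
  have hμ := h.ne_zero hψ
  have hμ' := h'.ne_zero hψ
  have h5 : csg (b' ⬝ᵥ a) = csg (b ⬝ᵥ a') := by
    have h6 : (csg (b' ⬝ᵥ a) - csg (b ⬝ᵥ a')) * (μ * μ' * ψ x) = 0 := by linear_combination h4
    rcases mul_eq_zero.1 h6 with h7 | h7
    · exact sub_eq_zero.1 h7
    · exact absurd h7 (mul_ne_zero (mul_ne_zero hμ hμ') hx)
  exact (csg_inj h5).symm

/-- `ψ` has at least `2^n` symmetries. -/
def Good (ψ : Bt ι → ℂ) : Prop := 2 ^ Fintype.card ι ≤ Nat.card (Lg ψ)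

lemma good_zero : Good (0 : Bt ι → ℂ) := by
  have h : Lg (0 : Bt ι → ℂ) = ⊤ := by
    rw [eq_top_iff]
    rintro ⟨a, b⟩ _
    exact ⟨0, fun x => by simp⟩
  unfold Good
  rw [h, AddSubgroup.card_top, Nat.card_prod]
  have : Nat.card (Bt ι) = 2 ^ Fintype.card ι := by
    rw [Nat.card_eq_fintype_card]; simp
  rw [this]
  exact Nat.le_mul_of_pos_left _ (by positivity)

/-- pull-back along an affine map -/
lemma Good.pull {ψ : Bt κ → ℂ} (h : Good ψ)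
    (T : Bt ι →+ Bt κ) (Tt : Bt κ →+ Bt ι) (hT : ∀ w b, T w ⬝ᵥ b = w ⬝ᵥ Tt b) (t0 : Bt κ) :
    Good (fun z => ψ (T z + t0)) := by
  by_cases hψ : ψ = 0
  · subst hψ
    exact good_zero
  apply pull_card (Lg ψ) (Lg_iso hψ) h T Tt hT
  rintro w b ⟨μ, hμ⟩
  refine ⟨csg (b ⬝ᵥ t0) * μ, fun x => ?_⟩
  have h1 := hμ (T x + t0)
  simp only at h1 ⊢
  rw [map_add, dotProduct_comm (Tt b) x, ← hT, dotProduct_comm (T x) b]
  rw [dotProduct_add, csg_add] at h1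
  have h3 := csg_mul_self (b ⬝ᵥ t0)
  have h4 : T x + T w + t0 = T x + t0 + T w := by abel
  rw [h4]
  calc csg (b ⬝ᵥ T x) * ψ (T x + t0 + T w)
      = (csg (b ⬝ᵥ t0) * csg (b ⬝ᵥ t0)) * csg (b ⬝ᵥ T x) * ψ (T x + t0 + T w) := by
        rw [h3]; ring
    _ = csg (b ⬝ᵥ t0) * (csg (b ⬝ᵥ T x) * csg (b ⬝ᵥ t0) * ψ (T x + t0 + T w)) := by ring
    _ = csg (b ⬝ᵥ t0) * μ * ψ (T x + t0) := by rw [h1]; ring

/-- push-forward along a linear map -/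
lemma Good.push {ψ : Bt κ → ℂ} (h : Good ψ)
    (R : Bt κ →+ Bt ι) (Rt : Bt ι →+ Bt κ) (hR : ∀ w b, Rt w ⬝ᵥ b = w ⬝ᵥ R b) :
    Good (fun y => ∑ z, if R z = y then ψ z else 0) := by
  by_cases hψ : ψ = 0
  · subst hψ
    have : (fun y : Bt ι => ∑ z : Bt κ, if R z = y then (0 : Bt κ → ℂ) z else 0) = 0 := by
      funext y; simp
    rw [this]
    exact good_zero
  set F : Bt ι → ℂ := fun y => ∑ z, if R z = y then ψ z else 0 with hF
  -- swap the coordinates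
  let e : (Bt κ × Bt κ) ≃+ (Bt κ × Bt κ) := AddEquiv.prodComm
  let e' : (Bt ι × Bt ι) ≃+ (Bt ι × Bt ι) := AddEquiv.prodComm
  let Ls : AddSubgroup (Bt κ × Bt κ) := (Lg ψ).map e.toAddMonoidHom
  let Ls' : AddSubgroup (Bt ι × Bt ι) := (Lg F).map e'.toAddMonoidHom
  have c1 : Nat.card Ls = Nat.card (Lg ψ) :=
    Nat.card_congr ((Lg ψ).equivMapOfInjective e.toAddMonoidHom e.injective).toEquiv.symm
  have c2 : Nat.card Ls' = Nat.card (Lg F) :=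
    Nat.card_congr ((Lg F).equivMapOfInjective e'.toAddMonoidHom e'.injective).toEquiv.symm
  have m1 : ∀ a b, (a, b) ∈ Ls ↔ (b, a) ∈ Lg ψ := by
    intro a b
    constructor
    · rintro ⟨⟨u, v⟩, hu, huv⟩
      have h1 : (v, u) = (a, b) := huv
      rw [Prod.mk.injEq] at h1
      rw [← h1.1, ← h1.2]
      exact hu
    · intro hh
      exact ⟨(b, a), hh, rfl⟩
  have m2 : ∀ a b, (b, a) ∈ Lg F → (a, b) ∈ Ls' := by
    intro a b hh
    exact ⟨(b, a), hh, rfl⟩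
  show 2 ^ Fintype.card ι ≤ Nat.card (Lg F)
  rw [← c2]
  apply pull_card Ls ?_ (by rw [c1]; exact h) Rt R hR
  · intro w b hwb
    rw [m1] at hwb
    apply m2
    obtain ⟨μ, hμ⟩ := hwb
    refine ⟨μ, fun y => ?_⟩
    show csg (w ⬝ᵥ y) * ∑ z, (if R z = y + R b then ψ z else 0) =
      μ * ∑ z, if R z = y then ψ z else 0
    rw [Finset.mul_sum, Finset.mul_sum]
    rw [← Equiv.sum_comp (Equiv.addRight b)]
    apply Finset.sum_congr rfl
    intro z _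
    simp only [Equiv.coe_addRight, map_add]
    by_cases hz : R z = y
    · rw [if_pos (by rw [hz]), if_pos hz]
      have h1 := hμ z
      simp only at h1
      rw [hR, hz] at h1
      exact h1
    · rw [if_neg (fun hh => hz (add_right_cancel hh)), if_neg hz]; simp
  · rintro ⟨a, b⟩ hp ⟨a', b'⟩ hq
    rw [m1] at hp hq
    have := Lg_iso hψ _ hp _ hq
    simp only at this ⊢
    rw [dotProduct_comm b a', dotProduct_comm b' a]
    exact this.symm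

/-- multiplication by a quadratic phase -/
lemma Good.phase {ψ : Bt κ → ℂ} (h : Good ψ) (q : Bt κ → ZMod 2) (B : Bt κ →+ Bt κ)
    (hq : ∀ z w, q (z + w) = q z + q w + B w ⬝ᵥ z) :
    Good (fun z => csg (q z) * ψ z) := by
  refine le_trans h ?_
  let f : Lg ψ → Lg (fun z => csg (q z) * ψ z) := fun p => ⟨(p.1.1, p.1.2 + B p.1.1), by
    obtain ⟨⟨a, b⟩, μ, hμ⟩ := p
    refine ⟨csg (q a) * μ, fun x => ?_⟩
    have h1 := hμ x
    simp only at h1 ⊢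
    rw [add_dotProduct, csg_add, hq, csg_add, csg_add]
    have h3 := csg_mul_self (B a ⬝ᵥ x)
    calc csg (b ⬝ᵥ x) * csg (B a ⬝ᵥ x) * (csg (q x) * csg (q a) * csg (B a ⬝ᵥ x) * ψ (x + a))
        = (csg (B a ⬝ᵥ x) * csg (B a ⬝ᵥ x)) * csg (q x) * csg (q a) *
          (csg (b ⬝ᵥ x) * ψ (x + a)) := by ring
      _ = csg (q a) * μ * (csg (q x) * ψ x) := by rw [h3, h1]; ring⟩
  apply Nat.card_le_card_of_injective f
  rintro ⟨⟨a, b⟩, hp⟩ ⟨⟨a', b'⟩, hp'⟩ hff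
  have h1 := congrArg Subtype.val hff
  simp only [f, Prod.mk.injEq] at h1
  obtain ⟨h2, h3⟩ := h1
  subst h2
  have h4 := add_right_cancel h3
  subst h4
  rfl

end Pool.Agent.N591.SR
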