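import Mathlib

/-!
# Subgroups of `F_2^κ` and the Lagrangian pull-back lemma
-/

open Finset

namespace Pool.Agent.N591.SR

/-- Bit strings indexed by `ι`. -/
abbrev Bt (ι : Type) : Type := ι → ZMod 2

/-- The sign character. -/
noncomputable def sg (s : ZMod 2) : ℝ := if s = 0 then 1 else -1

lemma zmod2_cases (s : ZMod 2) : s = 0 ∨ s = 1 := by
  revert s; decide

lemma sg_zero : sg 0 = 1 := by simp [sg]

lemma sg_one : sg 1 = -1 := by simp [sg]

lemma sg_add (s t : ZMod 2) : sg (s + t) = sg s * sg t := by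
  rcases zmod2_cases s with rfl | rfl <;> rcases zmod2_cases t with rfl | rfl
  · simp [sg]
  · simp [sg]
  · simp [sg]
  · have : (1 : ZMod 2) + 1 = 0 := by decide
    rw [this]; simp [sg]

lemma sg_mul_self (s : ZMod 2) : sg s * sg s = 1 := by
  rcases zmod2_cases s with rfl | rfl <;> simp [sg]

lemma sg_inj {s t : ZMod 2} (h : sg s = sg t) : s = t := by
  rcases zmod2_cases s with rfl | rfl <;> rcases zmod2_cases t with rfl | rfl
  · rfl
  · simp [sg] at h; norm_num at h
  · simp [sg] at h; norm_num at h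
  · rfl

lemma add_self_bt {ι : Type} (x : Bt ι) : x + x = 0 := by
  funext i
  have : ∀ s : ZMod 2, s + s = 0 := by decide
  exact this _

variable {ι κ : Type} [Fintype ι] [Fintype κ] [DecidableEq ι] [DecidableEq κ]

lemma sum_sg_sub (A : AddSubgroup (Bt κ)) (x : Bt κ) [DecidablePred (· ∈ A)] :
    0 ≤ ∑ a ∈ univ.filter (· ∈ A), sg (x ⬝ᵥ a) := by
  by_cases h : ∀ a ∈ A, x ⬝ᵥ a = 0
  · apply Finset.sum_nonneg
    intro a ha
    rw [mem_filter] at ha
    rw [h a ha.2, sg_zero]; norm_num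
  · push Not at h
    obtain ⟨a0, ha0, hx⟩ := h
    have hx1 : x ⬝ᵥ a0 = 1 := by
      rcases zmod2_cases (x ⬝ᵥ a0) with h | h
      · exact absurd h hx
      · exact h
    have key : ∑ a ∈ univ.filter (· ∈ A), sg (x ⬝ᵥ a) =
        - ∑ a ∈ univ.filter (· ∈ A), sg (x ⬝ᵥ a) := by
      rw [← Finset.sum_neg_distrib]
      refine Finset.sum_bij' (fun a _ => a + a0) (fun a _ => a + a0) ?_ ?_ ?_ ?_ ?_
      · intro a ha
        rw [mem_filter] at ha ⊢
        exact ⟨mem_univ _, A.add_mem ha.2 ha0⟩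
      · intro a ha
        rw [mem_filter] at ha ⊢
        exact ⟨mem_univ _, A.add_mem ha.2 ha0⟩
      · intro a _
        rw [add_assoc, add_self_bt, add_zero]
      · intro a _
        rw [add_assoc, add_self_bt, add_zero]
      · intro a _
        rw [dotProduct_add, sg_add, hx1, sg_one]; ring
    have : ∑ a ∈ univ.filter (· ∈ A), sg (x ⬝ᵥ a) = 0 := by linarith
    rw [this]

lemma sum_sg_univ (a : Bt κ) (ha : a ≠ 0) : ∑ x : Bt κ, sg (x ⬝ᵥ a) = 0 := by
  obtain ⟨i, hi⟩ : ∃ i, a i ≠ 0 := by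
    by_contra h
    push Not at h
    exact ha (funext h)
  have hi1 : a i = 1 := by
    rcases zmod2_cases (a i) with h | h
    · exact absurd h hi
    · exact h
  have key : ∑ x : Bt κ, sg (x ⬝ᵥ a) = - ∑ x : Bt κ, sg (x ⬝ᵥ a) := by
    rw [← Finset.sum_neg_distrib]
    refine Finset.sum_bij' (fun x _ => x + Pi.single i 1) (fun x _ => x + Pi.single i 1)
      ?_ ?_ ?_ ?_ ?_
    · intro x _; exact mem_univ _
    · intro x _; exact mem_univ _
    · intro x _; rw [add_assoc, add_self_bt, add_zero]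
    · intro x _; rw [add_assoc, add_self_bt, add_zero]
    · intro x _
      rw [add_dotProduct, single_dotProduct, sg_add, hi1, one_mul, sg_one]; ring
  linarith

/-- Two subgroups of `F_2^κ` which are orthogonal have product of sizes at most `2^κ`. -/
lemma card_orth (A B : AddSubgroup (Bt κ)) (h : ∀ a ∈ A, ∀ b ∈ B, b ⬝ᵥ a = 0) :
    Nat.card A * Nat.card B ≤ 2 ^ Fintype.card κ := by
  classical
  have hA : Nat.card A = (univ.filter (· ∈ A)).card := by
    rw [Nat.card_eq_fintype_card, Fintype.card_subtype]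
  have hB : Nat.card B = (univ.filter (· ∈ B)).card := by
    rw [Nat.card_eq_fintype_card, Fintype.card_subtype]
  have h1 : ∑ a ∈ univ.filter (· ∈ A), ∑ x : Bt κ, sg (x ⬝ᵥ a) = 2 ^ Fintype.card κ := by
    rw [Finset.sum_eq_single (0 : Bt κ)]
    · simp [sg_zero]
    · intro a _ ha
      exact sum_sg_univ a ha
    · intro h0
      exact absurd (mem_filter.2 ⟨mem_univ _, A.zero_mem⟩) h0
  rw [Finset.sum_comm] at h1
  have h2 : ∑ x ∈ univ.filter (· ∈ B), ∑ a ∈ univ.filter (· ∈ A), sg (x ⬝ᵥ a) ≤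
      ∑ x : Bt κ, ∑ a ∈ univ.filter (· ∈ A), sg (x ⬝ᵥ a) := by
    apply Finset.sum_le_sum_of_subset_of_nonneg (Finset.filter_subset _ _)
    intro x _ _
    exact sum_sg_sub A x
  have h3 : ∑ x ∈ univ.filter (· ∈ B), ∑ a ∈ univ.filter (· ∈ A), sg (x ⬝ᵥ a) =
      ((Nat.card A * Nat.card B : ℕ) : ℝ) := by
    rw [Finset.sum_congr rfl (g := fun _ => ((univ.filter (· ∈ A)).card : ℝ))]
    · rw [Finset.sum_const, hA, hB, nsmul_eq_mul]; push_cast; ring
    · intro x hx
      rw [mem_filter] at hx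
      rw [Finset.sum_congr rfl (g := fun _ => (1 : ℝ))]
      · simp
      · intro a ha
        rw [mem_filter] at ha
        rw [h a ha.2 x hx.2, sg_zero]
  have h4 : ((Nat.card A * Nat.card B : ℕ) : ℝ) ≤ ((2 ^ Fintype.card κ : ℕ) : ℝ) := by
    rw [← h3]; push_cast; rw [← h1]; exact h2
  exact_mod_cast h4

/-- Size of a finite group as product of the sizes of kernel and range. -/
lemma card_ker_range {G H : Type} [AddCommGroup G] [AddCommGroup H] (f : G →+ H) :
    Nat.card G = Nat.card f.range * Nat.card f.ker := by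
  have h1 := AddSubgroup.card_eq_card_quotient_mul_card_addSubgroup f.ker
  rw [h1, Nat.card_congr (QuotientAddGroup.quotientKerEquivRange f).toEquiv]

/-- **The Lagrangian pull-back lemma.** -/
lemma pull_card (L : AddSubgroup (Bt κ × Bt κ))
    (hiso : ∀ p ∈ L, ∀ q ∈ L, p.2 ⬝ᵥ q.1 = q.2 ⬝ᵥ p.1)
    (hcard : 2 ^ Fintype.card κ ≤ Nat.card L)
    (T : Bt ι →+ Bt κ) (Tt : Bt κ →+ Bt ι) (hT : ∀ w b, T w ⬝ᵥ b = w ⬝ᵥ Tt b)
    (L' : AddSubgroup (Bt ι × Bt ι))
    (hL' : ∀ w b, (T w, b) ∈ L → (w, Tt b) ∈ L') :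
    2 ^ Fintype.card ι ≤ Nat.card L' := by
  classical
  -- `f : F^ι × L → F^κ`
  let f : Bt ι × L →+ Bt κ :=
    { toFun := fun p => T p.1 + (p.2 : Bt κ × Bt κ).1
      map_zero' := by simp
      map_add' := by intro p q; simp; abel }
  let g : f.ker →+ Bt ι × Bt ι :=
    { toFun := fun p => ((p : Bt ι × L).1, Tt ((p : Bt ι × L).2 : Bt κ × Bt κ).2)
      map_zero' := by simp
      map_add' := by intro p q; simp }
  have hf := card_ker_range f
  have hg := card_ker_range g
  have hG : Nat.card (Bt ι × L) = 2 ^ Fintype.card ι * Nat.card L := by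
    rw [Nat.card_prod]
    congr 1
    rw [Nat.card_eq_fintype_card]; simp
  have hkerf : ∀ p : Bt ι × L, p ∈ f.ker → T p.1 = (p.2 : Bt κ × Bt κ).1 := by
    intro p hp
    have h : T p.1 + (p.2 : Bt κ × Bt κ).1 = 0 := hp
    have := congrArg (fun y => y + (p.2 : Bt κ × Bt κ).1) h
    simp only [add_assoc, add_self_bt, add_zero, zero_add] at this
    exact this
  -- range g ≤ L'
  have hrg : Nat.card g.range ≤ Nat.card L' := by
    apply Nat.card_mono (Set.toFinite _)
    rintro _ ⟨p, rfl⟩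
    have h1 := hkerf p.1 p.2
    apply hL'
    rw [h1]
    exact (p : Bt ι × L).2.2
  -- the orthogonality of range f and ker g
  let h : g.ker →+ Bt κ :=
    { toFun := fun p => ((p : f.ker) : Bt ι × L).2.1.2
      map_zero' := by simp
      map_add' := by intro p q; simp }
  have hh : Function.Injective h := by
    rw [injective_iff_map_eq_zero]
    intro p hp
    have hp1 : g (p : f.ker) = 0 := p.2
    have hp2 : ((p : f.ker) : Bt ι × L).1 = 0 := congrArg Prod.fst hp1
    have hp3 := hkerf (p : f.ker).1 (p : f.ker).2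
    have hp3' : ((p : f.ker) : Bt ι × L).2.1.1 = 0 := by
      rw [← hp3, hp2, map_zero]
    have hp4 : ((p : f.ker) : Bt ι × L).2.1.2 = 0 := hp
    apply Subtype.ext
    apply Subtype.ext
    apply Prod.ext
    · exact hp2
    · apply Subtype.ext
      apply Prod.ext
      · exact hp3'
      · exact hp4
  have hkg : Nat.card g.ker = Nat.card h.range :=
    Nat.card_congr (AddMonoidHom.ofInjective hh).toEquiv
  have horth : Nat.card f.range * Nat.card h.range ≤ 2 ^ Fintype.card κ := by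
    apply card_orth
    rintro _ ⟨p, rfl⟩ _ ⟨r, rfl⟩
    have hr1 : g (r : f.ker) = 0 := r.2
    have hr2 : ((r : f.ker) : Bt ι × L).1 = 0 := congrArg Prod.fst hr1
    have hr3 := hkerf (r : f.ker).1 (r : f.ker).2
    have hr3' : ((r : f.ker) : Bt ι × L).2.1.1 = 0 := by
      rw [← hr3, hr2, map_zero]
    have hr4 : Tt ((r : f.ker) : Bt ι × L).2.1.2 = 0 := congrArg Prod.snd hr1
    show ((r : f.ker) : Bt ι × L).2.1.2 ⬝ᵥ (T p.1 + p.2.1.1) = 0
    rw [dotProduct_add, dotProduct_comm, hT, hr4, dotProduct_zero, zero_add]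
    have h5 := hiso _ ((r : f.ker) : Bt ι × L).2.2 _ p.2.2
    rw [h5, hr3', dotProduct_zero]
  -- combine
  have e1 : 2 ^ Fintype.card ι * Nat.card L =
      Nat.card f.range * (Nat.card g.range * Nat.card h.range) := by
    rw [← hG, hf, hg, hkg]
  have e2 : 2 ^ Fintype.card ι * 2 ^ Fintype.card κ ≤ Nat.card L' * 2 ^ Fintype.card κ := by
    calc 2 ^ Fintype.card ι * 2 ^ Fintype.card κ ≤ 2 ^ Fintype.card ι * Nat.card L :=
          Nat.mul_le_mul_left _ hcard
      _ = Nat.card g.range * (Nat.card f.range * Nat.card h.range) := by rw [e1]; ring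
      _ ≤ Nat.card L' * 2 ^ Fintype.card κ := Nat.mul_le_mul hrg horth
  exact Nat.le_of_mul_le_mul_right e2 (by positivity)

end Pool.Agent.N591.SR
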