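import Pool.Agent.N591.SR.Net

/-!
# The lower bound for the stabilizer rank
-/

open Finset

namespace Pool.Agent.N591.SR

/-- the vector `e_0 + √2 e_1` -/
noncomputable def vv : Fin 2 → ℂ := ![1, ((Real.sqrt 2 : ℝ) : ℂ)]

/-- the same with real values -/
noncomputable def vr (s : ZMod 2) : ℝ := if s = 0 then 1 else Real.sqrt 2

lemma vv_eq (s : ZMod 2) : vv s = ((vr s : ℝ) : ℂ) := by
  rcases zmod2_cases s with rfl | rfl
  · simp only [vr, if_true]
    show (1 : ℂ) = _
    simp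
  · have h0 : (1 : ZMod 2) ≠ 0 := by decide
    simp only [vr, if_neg h0]
    rfl

/-- the tensor power as a function on bit strings -/
noncomputable def tv (d : ℕ) : Bt (Fin d) → ℂ := tpow vv d

lemma tpow_vv {d : ℕ} (x : Bt (Fin d)) : tv d x = ((∏ j, vr (x j) : ℝ) : ℂ) := by
  show ∏ j, vv (x j) = _
  rw [Finset.prod_congr rfl (fun j _ => vv_eq (x j))]
  push_cast
  rfl

lemma vr_pow (κ : ℕ) (s : ZMod 2) : vr (s + 1) ^ (2 * κ) = 2 ^ κ * am ((1 / 2) ^ κ) s := by
  rcases zmod2_cases s with rfl | rfl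
  · have h0 : (1 : ZMod 2) ≠ 0 := by decide
    rw [zero_add]
    simp only [vr, if_neg h0, am, if_true, mul_one]
    rw [pow_mul, Real.sq_sqrt (by norm_num)]
  · have h0 : (1 : ZMod 2) ≠ 0 := by decide
    have h1 : (1 : ZMod 2) + 1 = 0 := by decide
    rw [h1]
    simp only [vr, if_neg h0, am, if_true, one_pow]
    rw [← mul_pow]; norm_num

variable {m : ℕ}

lemma Phi_tpow {d κ : ℕ} (e : J m × Fin (2 * κ) ↪ Fin d) (A : Ad m → Ad m → ZMod 2) :
    ∃ c0 : ℝ, 0 < c0 ∧ ∀ y, Phi e A (tv d) y = ((c0 * GA ((1 / 2) ^ κ) A y : ℝ) : ℂ) := by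
  refine ⟨(2 ^ κ) ^ Fintype.card (J m) *
    (Real.sqrt 2) ^ (d - Fintype.card (J m) * Fintype.card (Fin (2 * κ))), by positivity, ?_⟩
  intro y
  unfold Phi GA
  rw [Finset.mul_sum]
  push_cast
  apply Finset.sum_congr rfl
  intro z _
  by_cases h : Rm z = y
  · rw [if_pos h, if_pos h]
    have h1 : tv d (Tm e z + 1) = ((∏ j, vr (Tm e z j + 1) : ℝ) : ℂ) := tpow_vv _
    have h0 : (1 : ZMod 2) ≠ 0 := by decide
    have h2 : vr 1 = Real.sqrt 2 := by simp only [vr, if_neg h0]
    rw [h1, prod_Tm, h2]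
    simp only [Fintype.card_fin]
    rw [Finset.prod_congr rfl (fun i _ => vr_pow κ (z i)), Finset.prod_mul_distrib,
      Finset.prod_const, Finset.card_univ]
    unfold csg
    push_cast
    ring
  · rw [if_neg h, if_neg h]; simp

/-- **The counting inequality.** -/
theorem main_count (m d r : ℕ) (hd : (3 * m + 5) * 2 ^ (m + 2) ≤ d) (α : Fin r → ℂ)
    (t : Fin r → V d) (ht : ∀ i, t i ∈ Stab d) (h : tpow vv d = ∑ i, α i • t i) :
    2 ^ (2 ^ m * 2 ^ m) ≤ Fintype.card (Code (I m)) ^ r * (2 ^ m * 2 ^ m + 1) ^ (2 * r) := by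
  classical
  have hJ : Fintype.card (J m) = 2 ^ (m + 1) := by
    rw [Fintype.card_sum]
    have : Fintype.card (Ad m) = 2 ^ m := by simp
    rw [this, pow_succ]; ring
  set κ := 3 * m + 5 with hκ
  obtain ⟨e⟩ : Nonempty (J m × Fin (2 * κ) ↪ Fin d) := by
    apply Function.Embedding.nonempty_of_card_le
    rw [Fintype.card_prod, hJ, Fintype.card_fin, Fintype.card_fin]
    calc 2 ^ (m + 1) * (2 * κ) = κ * 2 ^ (m + 2) := by rw [pow_succ 2 (m + 1)]; ring
      _ ≤ d := hd
  -- the representatives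
  have hgood : ∀ (A : Ad m → Ad m → ZMod 2) (i : Fin r),
      ∃ (c : Code (I m)) (lam : ℂ), Phi e A (t i) = lam • rep c :=
    fun A i => exists_rep (Phi_good e A (Stab.good (ht i)))
  choose c lam hc using hgood
  -- the real space of a tuple of codes
  let g : (Fin r → Code (I m)) → (Fin r ⊕ Fin r) → (Ad m × Ad m → ℝ) := fun cc j =>
    Sum.elim (fun i p => (rep (cc i) (yst p.1 p.2)).re)
      (fun i p => (rep (cc i) (yst p.1 p.2)).im) j
  let W : (Fin r → Code (I m)) → Submodule ℝ (Ad m × Ad m → ℝ) := fun cc =>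
    Submodule.span ℝ (Set.range (g cc))
  have hW : ∀ cc, Module.finrank ℝ (W cc) ≤ 2 * r := by
    intro cc
    have := finrank_range_le_card (R := ℝ) (g cc)
    rw [Fintype.card_sum, Fintype.card_fin] at this
    calc Module.finrank ℝ (W cc) ≤ r + r := this
      _ = 2 * r := by ring
  set ε : ℝ := (1 / 2) ^ κ with hε
  have hε0 : 0 < ε := by positivity
  have hsmall : 3 * ((Fintype.card (J m) : ℕ) : ℝ) ^ 3 * ε < 1 := by
    rw [hJ, hε, hκ]
    push_cast
    have h1 : ((2 : ℝ) ^ (m + 1)) ^ 3 * (1 / 2) ^ (3 * m + 5) = 1 / 4 := by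
      rw [← pow_mul, show 3 * m + 5 = (m + 1) * 3 + 2 by ring, pow_add, one_div, inv_pow,
        ← mul_assoc, mul_inv_cancel₀ (by positivity)]
      norm_num
    calc 3 * ((2 : ℝ) ^ (m + 1)) ^ 3 * (1 / 2) ^ (3 * m + 5)
        = 3 * (((2 : ℝ) ^ (m + 1)) ^ 3 * (1 / 2) ^ (3 * m + 5)) := by ring
      _ = 3 / 4 := by rw [h1]; norm_num
      _ < 1 := by norm_num
  -- the patterns
  let P : (Ad m → Ad m → ZMod 2) → Finset (Ad m × Ad m) := fun A =>
    univ.filter fun p => A p.1 p.2 = 0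
  have hPinj : Function.Injective P := by
    intro A B hAB
    funext s s'
    have h1 : (s, s') ∈ P A ↔ (s, s') ∈ P B := by rw [hAB]
    simp only [P, mem_filter, mem_univ, true_and] at h1
    rcases zmod2_cases (A s s') with h2 | h2 <;> rcases zmod2_cases (B s s') with h3 | h3
    · rw [h2, h3]
    · rw [h1.1 h2] at h3; exact absurd h3 (by decide)
    · rw [h1.2 h3] at h2; exact absurd h2 (by decide)
    · rw [h2, h3]
  have hpat : ∀ A : Ad m → Ad m → ZMod 2, ∃ f ∈ W (c A), ∀ y, y ∈ P A ↔ 0 < f y := by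
    intro A
    obtain ⟨c0, hc0, hPhi⟩ := Phi_tpow (κ := κ) e A
    refine ⟨fun p => c0 * GA ε A (yst p.1 p.2), ?_, ?_⟩
    · have h1 : Phi e A (tv d) = ∑ i, (α i * lam A i) • rep (c A i) := by
        have h2 := Phi_sum e A α t
        have h3 : Phi e A (tv d) = ∑ i, α i • Phi e A (t i) :=
          (congrArg (Phi e A) h).trans h2
        rw [h3]
        apply Finset.sum_congr rfl
        intro i _
        rw [hc A i, smul_smul]
      have h4 : (fun p : Ad m × Ad m => c0 * GA ε A (yst p.1 p.2)) =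
          ∑ i, ((α i * lam A i).re • g (c A) (Sum.inl i) -
            (α i * lam A i).im • g (c A) (Sum.inr i)) := by
        funext p
        have h5 := congrArg Complex.re ((hPhi (yst p.1 p.2)).symm.trans (congrFun h1 (yst p.1 p.2)))
        rw [Complex.ofReal_re] at h5
        rw [h5, Finset.sum_apply, Finset.sum_apply, Complex.re_sum]
        apply Finset.sum_congr rfl
        intro i _
        rw [Pi.smul_apply, smul_eq_mul, Complex.mul_re]
        rfl
      rw [h4]
      apply Submodule.sum_mem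
      intro i _
      apply Submodule.sub_mem
      · exact Submodule.smul_mem _ _ (Submodule.subset_span ⟨Sum.inl i, rfl⟩)
      · exact Submodule.smul_mem _ _ (Submodule.subset_span ⟨Sum.inr i, rfl⟩)
    · intro p
      have h1 := GA_pos hε0 _ rfl hsmall A p.1 p.2
      simp only [P, mem_filter, mem_univ, true_and]
      constructor
      · intro h2
        rw [h2, sg_zero, one_mul] at h1
        exact mul_pos hc0 h1
      · intro h2
        have h3 : 0 < GA ε A (yst p.1 p.2) := (mul_pos_iff_of_pos_left hc0).1 h2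
        rcases zmod2_cases (A p.1 p.2) with h4 | h4
        · exact h4
        · rw [h4, sg_one] at h1
          linarith
  -- count
  have hcount : ∀ cc : Fin r → Code (I m),
      (univ.filter fun A : Ad m → Ad m → ZMod 2 => c A = cc).card ≤
        (2 ^ m * 2 ^ m + 1) ^ (2 * r) := by
    intro cc
    have h1 := card_patterns (W cc) (2 * r) (hW cc)
      ((univ.filter fun A : Ad m → Ad m → ZMod 2 => c A = cc).image P) (by
        intro s hs
        rw [mem_image] at hs
        obtain ⟨A, hA, rfl⟩ := hs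
        rw [mem_filter] at hA
        have := hpat A
        rw [hA.2] at this
        exact this)
    rw [Finset.card_image_of_injective _ hPinj] at h1
    have h2 : Fintype.card (Ad m × Ad m) = 2 ^ m * 2 ^ m := by
      rw [Fintype.card_prod]; simp
    rw [h2] at h1
    exact h1
  have htot : Fintype.card (Ad m → Ad m → ZMod 2) = 2 ^ (2 ^ m * 2 ^ m) := by
    simp [pow_mul]
  rw [← htot, ← Finset.card_univ]
  rw [Finset.card_eq_sum_card_fiberwise (f := c) (t := (univ : Finset (Fin r → Code (I m))))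
    (fun _ _ => by simp)]
  calc ∑ cc : Fin r → Code (I m), (univ.filter fun A => c A = cc).card
      ≤ ∑ _cc : Fin r → Code (I m), (2 ^ m * 2 ^ m + 1) ^ (2 * r) :=
        Finset.sum_le_sum fun cc _ => hcount cc
    _ = Fintype.card (Code (I m)) ^ r * (2 ^ m * 2 ^ m + 1) ^ (2 * r) := by
        rw [Finset.sum_const, Finset.card_univ, Fintype.card_fun, Fintype.card_fin, smul_eq_mul]

/-- the inequality in exponent form -/
theorem rank_lower (m d : ℕ) (hm : 1 ≤ m) (hd : (3 * m + 5) * 2 ^ (m + 2) ≤ d) :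
    2 ^ m * 2 ^ m ≤ 86 * m ^ 2 * stabR (tpow vv d) := by
  obtain ⟨α, t, ht, h⟩ := stabR_spec (tpow vv d)
  have h1 := main_count m d _ hd α t ht h
  clear h ht t α
  generalize stabR (tpow vv d) = r at *
  have hI : Fintype.card (I m) = 2 * (m + 1) := by
    rw [Fintype.card_sum, Fintype.card_option, Fintype.card_fin]; ring
  rw [card_code, hI, ← pow_mul] at h1
  have h2 : 2 ^ m * 2 ^ m + 1 ≤ 2 ^ (2 * m + 1) := by
    have : 2 ^ (2 * m + 1) = 2 * (2 ^ m * 2 ^ m) := by
      rw [pow_succ, two_mul m, pow_add]; ring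
    rw [this]
    have : 1 ≤ 2 ^ m * 2 ^ m := Nat.one_le_iff_ne_zero.2 (by positivity)
    omega
  have h3 : (2 ^ m * 2 ^ m + 1) ^ (2 * r) ≤ 2 ^ ((2 * m + 1) * (2 * r)) := by
    rw [pow_mul 2]
    exact Nat.pow_le_pow_left h2 _
  have h4 : 2 ^ (2 ^ m * 2 ^ m) ≤ 2 ^ ((2 * (2 * (m + 1)) + 2) * (2 * (2 * (m + 1))) * r +
      (2 * m + 1) * (2 * r)) := by
    rw [pow_add]
    exact h1.trans (Nat.mul_le_mul_left _ h3)
  have h5 := (Nat.pow_le_pow_iff_right (by norm_num : 1 < 2)).1 h4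
  refine h5.trans ?_
  have h6 : (2 * (2 * (m + 1)) + 2) * (2 * (2 * (m + 1))) * r + (2 * m + 1) * (2 * r) =
      (16 * m ^ 2 + 44 * m + 26) * r := by ring
  rw [h6]
  apply Nat.mul_le_mul_right
  nlinarith

lemma rank_pos (d : ℕ) : 1 ≤ stabR (tpow vv d) := by
  by_contra hlt
  push Not at hlt
  obtain ⟨α, t, _, h⟩ := stabR_spec (tpow vv d)
  have h0 : stabR (tpow vv d) = 0 := by omega
  have h1 : tpow vv d = 0 := by
    rw [h]
    apply Finset.sum_eq_zero
    intro i _
    exact absurd i.2 (by omega)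
  have h2 := congrFun h1 (fun _ => 0)
  have h3 : tpow vv d (fun _ => 0) = 1 := by
    show ∏ j : Fin d, vv 0 = 1
    apply Finset.prod_eq_one
    intro j _
    rfl
  rw [h3] at h2
  simp at h2

/-- **Quadratic lower bound (up to logarithms).** -/
theorem stabR_lower : ∃ c : ℝ, 0 < c ∧ ∀ d : ℕ, 2 ≤ d →
    c * (d : ℝ) ^ 2 / (Real.log d) ^ 4 ≤ (stabR (tpow vv d) : ℝ) := by
  refine ⟨1 / 11000000, by norm_num, ?_⟩
  intro d hd
  have hd2 : (2 : ℝ) ≤ (d : ℝ) := by exact_mod_cast hd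
  have hlog2 : (0.69 : ℝ) < Real.log 2 := by
    have := Real.log_two_gt_d9; linarith
  have hlogd : Real.log 2 ≤ Real.log d := Real.log_le_log (by norm_num) hd2
  have hlogpos : 0 < Real.log d := by linarith
  rw [div_le_iff₀ (by positivity)]
  by_cases hsmall : d < 64
  · have h1 : (1 : ℝ) ≤ (stabR (tpow vv d) : ℝ) := by exact_mod_cast rank_pos d
    have h2 : (d : ℝ) ≤ 64 := by exact_mod_cast hsmall.le
    have h3 : (0.69 : ℝ) ^ 4 ≤ Real.log d ^ 4 :=
      pow_le_pow_left₀ (by norm_num) (by linarith) 4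
    have h4 : (d : ℝ) ^ 2 ≤ 64 ^ 2 := pow_le_pow_left₀ (by linarith) h2 2
    calc 1 / 11000000 * (d : ℝ) ^ 2 ≤ 1 / 11000000 * 64 ^ 2 := by linarith
      _ ≤ 1 * (0.69 : ℝ) ^ 4 := by norm_num
      _ ≤ (stabR (tpow vv d) : ℝ) * Real.log d ^ 4 :=
        mul_le_mul h1 h3 (by norm_num) (by linarith)
  · push Not at hsmall
    -- the largest admissible m
    let p : ℕ → Prop := fun m => (3 * m + 5) * 2 ^ (m + 2) ≤ d
    have hp1 : p 1 := by
      show (3 * 1 + 5) * 2 ^ (1 + 2) ≤ d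
      norm_num; exact hsmall
    have hbound : ∀ m, p m → m ≤ d := by
      intro m hm
      have h1 : m < 2 ^ m := Nat.lt_two_pow_self
      have h2 : (3 * m + 5) * 2 ^ (m + 2) ≤ d := hm
      have h3 : 2 ^ (m + 2) = 4 * 2 ^ m := by rw [pow_add]; ring
      rw [h3] at h2
      nlinarith
    classical
    set M := Nat.findGreatest p d with hM
    have hpM : p M := Nat.findGreatest_spec (hbound 1 hp1) hp1
    have hM1 : 1 ≤ M := Nat.le_findGreatest (hbound 1 hp1) hp1
    have hnot : ¬ p (M + 1) := by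
      intro hh
      have := Nat.le_findGreatest (hbound _ hh) hh
      omega
    have hlt : d < (3 * (M + 1) + 5) * 2 ^ (M + 1 + 2) := by
      by_contra hh
      push Not at hh
      exact hnot hh
    have hr := rank_lower M d hM1 hpM
    -- `d ≤ 88 M 2^M`
    have h1 : d ≤ 88 * M * 2 ^ M := by
      have e1 : 2 ^ (M + 1 + 2) = 8 * 2 ^ M := by rw [pow_add, pow_add]; ring
      rw [e1] at hlt
      have : (3 * (M + 1) + 5) * (8 * 2 ^ M) ≤ 88 * M * 2 ^ M := by
        have e2 : 3 * (M + 1) + 5 ≤ 11 * M := by omega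
        calc (3 * (M + 1) + 5) * (8 * 2 ^ M) ≤ (11 * M) * (8 * 2 ^ M) :=
              Nat.mul_le_mul_right _ e2
          _ = 88 * M * 2 ^ M := by ring
      omega
    -- `M ≤ 2 log d`
    have h2 : (M : ℝ) ≤ Real.log d / 0.69 := by
      have e1 : 2 ^ M ≤ d := by
        have : (3 * M + 5) * 2 ^ (M + 2) ≤ d := hpM
        have e3 : 2 ^ (M + 2) = 4 * 2 ^ M := by rw [pow_add]; ring
        rw [e3] at this
        nlinarith [Nat.one_le_two_pow (n := M)]
      have e2 : (2 : ℝ) ^ M ≤ (d : ℝ) := by exact_mod_cast e1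
      have e3 : Real.log ((2 : ℝ) ^ M) ≤ Real.log d := Real.log_le_log (by positivity) e2
      rw [Real.log_pow] at e3
      rw [le_div_iff₀ (by norm_num)]
      have hM0 : (0 : ℝ) ≤ (M : ℝ) := Nat.cast_nonneg _
      nlinarith
    have h3 : (d : ℝ) ≤ 88 * M * 2 ^ M := by exact_mod_cast h1
    have h4 : ((2 : ℝ) ^ M) * 2 ^ M ≤ 86 * M ^ 2 * (stabR (tpow vv d) : ℝ) := by exact_mod_cast hr
    have hM0 : (0 : ℝ) ≤ (M : ℝ) := Nat.cast_nonneg _
    have hR0 : (0 : ℝ) ≤ (stabR (tpow vv d) : ℝ) := Nat.cast_nonneg _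
    have h5 : (d : ℝ) ^ 2 ≤ 665984 * M ^ 4 * (stabR (tpow vv d) : ℝ) := by
      calc (d : ℝ) ^ 2 ≤ (88 * M * 2 ^ M) ^ 2 := pow_le_pow_left₀ (by linarith) h3 2
        _ = 7744 * M ^ 2 * (2 ^ M * 2 ^ M) := by ring
        _ ≤ 7744 * M ^ 2 * (86 * M ^ 2 * (stabR (tpow vv d) : ℝ)) :=
            mul_le_mul_of_nonneg_left h4 (by positivity)
        _ = 665984 * M ^ 4 * (stabR (tpow vv d) : ℝ) := by ring
    have h6 : (M : ℝ) ^ 4 ≤ (Real.log d / 0.69) ^ 4 := pow_le_pow_left₀ hM0 h2 4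
    have h7 : (Real.log d / 0.69) ^ 4 ≤ 5 * Real.log d ^ 4 := by
      rw [div_pow, div_le_iff₀ (by norm_num)]
      nlinarith [pow_pos hlogpos 4]
    have h8 : (d : ℝ) ^ 2 ≤ 665984 * (5 * Real.log d ^ 4) * (stabR (tpow vv d) : ℝ) :=
      h5.trans (mul_le_mul_of_nonneg_right
        (mul_le_mul_of_nonneg_left (h6.trans h7) (by norm_num)) hR0)
    have h9 : 0 ≤ (stabR (tpow vv d) : ℝ) * Real.log d ^ 4 := by positivity
    nlinarith

end Pool.Agent.N591.SR
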