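import Mathlib

/-!
# The number of sign patterns of a real vector space of functions
-/

open Finset

namespace Pool.Agent.N591.SR

lemma sum_choose_le (N ρ v : ℕ) (hv : v ≤ ρ) : ∑ k ∈ Iic v, N.choose k ≤ (N + 1) ^ ρ := by
  rw [add_pow]
  have h1 : ∀ k ∈ Iic v, N.choose k ≤ N ^ k * 1 ^ (ρ - k) * (ρ.choose k) := by
    intro k hk
    rw [mem_Iic] at hk
    rw [one_pow, mul_one]
    calc N.choose k ≤ N ^ k := Nat.choose_le_pow N k
      _ = N ^ k * 1 := (mul_one _).symm
      _ ≤ N ^ k * ρ.choose k := Nat.mul_le_mul_left _ (Nat.choose_pos (hk.trans hv))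
  refine (Finset.sum_le_sum h1).trans ?_
  apply Finset.sum_le_sum_of_subset
  intro k hk
  rw [mem_Iic] at hk
  rw [mem_range]
  omega

/-- The number of positivity sets of a real vector space of functions of dimension `≤ ρ`
on a set with `N` elements is at most `(N + 1) ^ ρ`. -/
theorem card_patterns {Y : Type} [Fintype Y] [DecidableEq Y] (W : Submodule ℝ (Y → ℝ)) (ρ : ℕ)
    (hW : Module.finrank ℝ W ≤ ρ) (A : Finset (Finset Y))
    (hA : ∀ s ∈ A, ∃ f ∈ W, ∀ y, y ∈ s ↔ 0 < f y) :
    A.card ≤ (Fintype.card Y + 1) ^ ρ := by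
  have hsh : ∀ s : Finset Y, A.Shatters s → s.card ≤ ρ := by
    intro s hs
    by_contra hlt
    push Not at hlt
    -- restriction to `s`
    let res : (Y → ℝ) →ₗ[ℝ] (s → ℝ) := LinearMap.funLeft ℝ ℝ (fun y : s => (y : Y))
    have hrange : W.map res < ⊤ := by
      rw [lt_top_iff_ne_top]
      intro h
      have h1 : Module.finrank ℝ (W.map res) ≤ Module.finrank ℝ W := Submodule.finrank_map_le _ _
      rw [h, finrank_top, Module.finrank_fintype_fun_eq_card, Fintype.card_coe] at h1
      omega
    obtain ⟨f, hf0, hf⟩ := Submodule.exists_le_ker_of_lt_top _ hrange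
    have hfsum : ∀ u : s → ℝ, f u = ∑ y, u y * f (Pi.single y 1) := by
      intro u
      conv_lhs => rw [← Finset.univ_sum_single u]
      rw [map_sum]
      apply Finset.sum_congr rfl
      intro y _
      have : (Pi.single y (u y) : s → ℝ) = u y • Pi.single y 1 := by
        rw [← Pi.single_smul, smul_eq_mul, mul_one]
      rw [this, map_smul, smul_eq_mul]
    -- a relation with a positive coefficient
    obtain ⟨c, hc, y0, hy0⟩ : ∃ c : s → ℝ, (∀ g ∈ W, ∑ y : s, g y * c y = 0) ∧ ∃ y, 0 < c y := by
      have hz : ∀ g ∈ W, ∑ y : s, g y * f (Pi.single y 1) = 0 := by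
        intro g hg
        have h1 : f (res g) = 0 := hf ⟨g, hg, rfl⟩
        rw [hfsum] at h1
        exact h1
      obtain ⟨y, hy⟩ : ∃ y : s, f (Pi.single y 1) ≠ 0 := by
        by_contra hall
        push Not at hall
        apply hf0
        apply LinearMap.ext
        intro u
        rw [hfsum]
        simp [hall]
      rcases lt_or_gt_of_ne hy with hneg | hpos
      · refine ⟨fun y => - f (Pi.single y 1), ?_, y, by simpa using hneg⟩
        intro g hg
        simp only [mul_neg, Finset.sum_neg_distrib, hz g hg, neg_zero]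
      · exact ⟨fun y => f (Pi.single y 1), hz, y, hpos⟩
    let t : Finset Y := (univ.filter fun y : s => 0 < c y).map (Function.Embedding.subtype _)
    have ht : t ⊆ s := by
      intro y hy
      rw [Finset.mem_map] at hy
      obtain ⟨z, _, rfl⟩ := hy
      exact z.2
    obtain ⟨u, huA, hu⟩ := hs ht
    obtain ⟨g, hgW, hg⟩ := hA u huA
    have hsign : ∀ y : s, 0 < g y ↔ 0 < c y := by
      intro y
      rw [← hg]
      have h1 : (y : Y) ∈ s ∩ u ↔ (y : Y) ∈ t := by rw [hu]
      rw [Finset.mem_inter] at h1
      have h2 : (y : Y) ∈ t ↔ 0 < c y := by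
        simp only [t, Finset.mem_map, Finset.mem_filter, Finset.mem_univ, true_and,
          Function.Embedding.subtype_apply]
        constructor
        · rintro ⟨z, hz, hzy⟩
          have : z = y := Subtype.ext hzy
          rw [← this]; exact hz
        · intro h; exact ⟨y, h, rfl⟩
      rw [← h2, ← h1]
      exact ⟨fun h => ⟨y.2, h⟩, fun h => h.2⟩
    have hpos : 0 < ∑ y : s, g y * c y := by
      apply Finset.sum_pos'
      · intro y _
        by_cases h : 0 < c y
        · exact (mul_pos ((hsign y).2 h) h).le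
        · have h1 : g y ≤ 0 := by
            by_contra h2
            push Not at h2
            exact h ((hsign y).1 h2)
          push Not at h
          exact mul_nonneg_of_nonpos_of_nonpos h1 h
      · exact ⟨y0, mem_univ _, mul_pos ((hsign y0).2 hy0) hy0⟩
    rw [hc g hgW] at hpos
    exact lt_irrefl _ hpos
  have hv : A.vcDim ≤ ρ := by
    unfold Finset.vcDim
    apply Finset.sup_le
    intro s hs
    exact hsh s (Finset.mem_shatterer.1 hs)
  calc A.card ≤ A.shatterer.card := Finset.card_le_card_shatterer A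
    _ ≤ ∑ k ∈ Iic A.vcDim, (Fintype.card Y).choose k := Finset.card_shatterer_le_sum_vcDim
    _ ≤ _ := sum_choose_le _ _ _ hv

end Pool.Agent.N591.SR
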