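import Pool.Agent.N591.SR.Pauli
import Pool.Agent.N591.SR.VC

/-!
# The network: one-hot addresses, controlled-phase gates, and erasure of the addresses
-/

open Finset

namespace Pool.Agent.N591.SR

/-- addresses -/
abbrev Ad (m : ℕ) : Type := Fin m → ZMod 2

/-- index set of the address qubits -/
abbrev J (m : ℕ) : Type := Ad m ⊕ Ad m

/-- index set of the output qubits -/
abbrev I (m : ℕ) : Type := Option (Fin m) ⊕ Option (Fin m)

variable {m : ℕ}

/-- coordinates of the vector `(s, 1)` -/
def wt (o : Option (Fin m)) (s : Ad m) : ZMod 2 :=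
  match o with
  | none => 1
  | some i => s i

/-- the linear map sending the unit vector at `s` to `(s, 1)` on both halves -/
def Rm : Bt (J m) →+ Bt (I m) where
  toFun z := Sum.elim (fun o => ∑ s, z (Sum.inl s) * wt o s)
    (fun o => ∑ s, z (Sum.inr s) * wt o s)
  map_zero' := by
    funext j; rcases j with o | o <;> simp
  map_add' z w := by
    funext j
    rcases j with o | o
    · simp only [Sum.elim_inl, Pi.add_apply, add_mul, Finset.sum_add_distrib]
    · simp only [Sum.elim_inr, Pi.add_apply, add_mul, Finset.sum_add_distrib]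

/-- its adjoint -/
def Rtm : Bt (I m) →+ Bt (J m) where
  toFun b := Sum.elim (fun s => ∑ o, b (Sum.inl o) * wt o s)
    (fun s => ∑ o, b (Sum.inr o) * wt o s)
  map_zero' := by
    funext j; rcases j with o | o <;> simp
  map_add' z w := by
    funext j
    rcases j with o | o
    · simp only [Sum.elim_inl, Pi.add_apply, add_mul, Finset.sum_add_distrib]
    · simp only [Sum.elim_inr, Pi.add_apply, add_mul, Finset.sum_add_distrib]

lemma Rm_adj (w : Bt (I m)) (b : Bt (J m)) : Rtm w ⬝ᵥ b = w ⬝ᵥ Rm b := by
  have key : ∀ (f : Option (Fin m) → ZMod 2) (g : Ad m → ZMod 2),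
      ∑ s, (∑ o, f o * wt o s) * g s = ∑ o, f o * ∑ s, g s * wt o s := by
    intro f g
    simp_rw [Finset.sum_mul, Finset.mul_sum]
    rw [Finset.sum_comm]
    apply Finset.sum_congr rfl
    intro o _
    apply Finset.sum_congr rfl
    intro s _
    ring
  show ∑ j, Rtm w j * b j = ∑ i, w i * Rm b i
  rw [Fintype.sum_sum_type, Fintype.sum_sum_type]
  exact congrArg₂ (· + ·) (key (fun o => w (Sum.inl o)) (fun s => b (Sum.inl s)))
    (key (fun o => w (Sum.inr o)) (fun s => b (Sum.inr s)))

/-- the quadratic form -/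
def qA (A : Ad m → Ad m → ZMod 2) (z : Bt (J m)) : ZMod 2 :=
  ∑ s, ∑ t, A s t * z (Sum.inl s) * z (Sum.inr t)

/-- its polarization -/
def BA (A : Ad m → Ad m → ZMod 2) : Bt (J m) →+ Bt (J m) where
  toFun w := Sum.elim (fun s => ∑ t, A s t * w (Sum.inr t))
    (fun t => ∑ s, A s t * w (Sum.inl s))
  map_zero' := by
    funext j; rcases j with o | o <;> simp
  map_add' z w := by
    funext j
    rcases j with o | o
    · simp only [Sum.elim_inl, Pi.add_apply, mul_add, Finset.sum_add_distrib]
    · simp only [Sum.elim_inr, Pi.add_apply, mul_add, Finset.sum_add_distrib]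

lemma qA_add (A : Ad m → Ad m → ZMod 2) (z w : Bt (J m)) :
    qA A (z + w) = qA A z + qA A w + BA A w ⬝ᵥ z := by
  have h : BA A w ⬝ᵥ z = ∑ s, ∑ t, A s t * z (Sum.inl s) * w (Sum.inr t) +
      ∑ s, ∑ t, A s t * w (Sum.inl s) * z (Sum.inr t) := by
    show ∑ j, BA A w j * z j = _
    rw [Fintype.sum_sum_type]
    congr 1
    · apply Finset.sum_congr rfl
      intro s _
      show (∑ t, A s t * w (Sum.inr t)) * z (Sum.inl s) = _
      rw [Finset.sum_mul]
      apply Finset.sum_congr rfl
      intro t _
      ring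
    · rw [Finset.sum_comm]
      apply Finset.sum_congr rfl
      intro t _
      show (∑ s, A s t * w (Sum.inl s)) * z (Sum.inr t) = _
      rw [Finset.sum_mul]
  rw [h]
  unfold qA
  rw [← Finset.sum_add_distrib, ← Finset.sum_add_distrib, ← Finset.sum_add_distrib]
  apply Finset.sum_congr rfl
  intro s _
  rw [← Finset.sum_add_distrib, ← Finset.sum_add_distrib, ← Finset.sum_add_distrib]
  apply Finset.sum_congr rfl
  intro t _
  simp only [Pi.add_apply]
  ring

section copy

variable {Q K : Type} [Fintype Q] [Fintype K] [DecidableEq Q] [DecidableEq K]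
variable {d : ℕ} (e : Q × K ↪ Fin d)

/-- copy each address qubit `|K|` times -/
def Tm : Bt Q →+ Bt (Fin d) where
  toFun z := fun j => ∑ p : Q × K, if e p = j then z p.1 else 0
  map_zero' := by
    funext j; simp
  map_add' z w := by
    funext j
    simp only [Pi.add_apply]
    rw [← Finset.sum_add_distrib]
    apply Finset.sum_congr rfl
    intro p _
    split_ifs <;> simp

/-- its adjoint -/
def Ttm : Bt (Fin d) →+ Bt Q where
  toFun b := fun i => ∑ l : K, b (e (i, l))
  map_zero' := by
    funext j; simp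
  map_add' z w := by
    funext j
    simp only [Pi.add_apply]
    rw [← Finset.sum_add_distrib]

omit [DecidableEq Q] [DecidableEq K] in
lemma Tm_adj (w : Bt Q) (b : Bt (Fin d)) : Tm e w ⬝ᵥ b = w ⬝ᵥ Ttm e b := by
  show ∑ j, (∑ p : Q × K, if e p = j then w p.1 else 0) * b j = ∑ i, w i * ∑ l : K, b (e (i, l))
  simp_rw [Finset.sum_mul]
  rw [Finset.sum_comm]
  have h1 : ∀ p : Q × K, ∑ j, (if e p = j then w p.1 else 0) * b j = w p.1 * b (e p) := by
    intro p
    rw [Finset.sum_eq_single (e p)]
    · rw [if_pos rfl]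
    · intro j _ hj
      rw [if_neg (fun h => hj h.symm), zero_mul]
    · intro h; exact absurd (mem_univ _) h
  rw [Finset.sum_congr rfl (fun p _ => h1 p), Fintype.sum_prod_type]
  apply Finset.sum_congr rfl
  intro i _
  rw [Finset.mul_sum]

omit [DecidableEq Q] [DecidableEq K] in
lemma Tm_apply (z : Bt Q) (p : Q × K) : Tm e z (e p) = z p.1 := by
  classical
  show (∑ p' : Q × K, if e p' = e p then z p'.1 else 0) = z p.1
  rw [Finset.sum_eq_single p]
  · rw [if_pos rfl]
  · intro p' _ hp'
    rw [if_neg (fun h => hp' (e.injective h))]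
  · intro h; exact absurd (mem_univ _) h

omit [DecidableEq Q] [DecidableEq K] in
lemma Tm_apply_not (z : Bt Q) (j : Fin d) (hj : ∀ p, e p ≠ j) : Tm e z j = 0 := by
  show (∑ p' : Q × K, if e p' = j then z p'.1 else 0) = 0
  apply Finset.sum_eq_zero
  intro p _
  rw [if_neg (hj p)]

/-- value of a product function at a copied argument -/
lemma prod_Tm (f : ZMod 2 → ℝ) (z : Bt Q) :
    ∏ j, f (Tm e z j + 1) =
      (∏ i, f (z i + 1) ^ Fintype.card K) * f 1 ^ (d - Fintype.card Q * Fintype.card K) := by
  rw [← Finset.prod_mul_prod_compl (univ.map e)]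
  congr 1
  · rw [Finset.prod_map, Fintype.prod_prod_type]
    apply Finset.prod_congr rfl
    intro i _
    rw [Finset.prod_congr rfl (g := fun _ => f (z i + 1))]
    · rw [Finset.prod_const, Finset.card_univ]
    · intro l _
      rw [Tm_apply]
  · rw [Finset.prod_congr rfl (g := fun _ => f 1)]
    · rw [Finset.prod_const, Finset.card_compl, Finset.card_map, Finset.card_univ,
        Fintype.card_fin, Fintype.card_prod]
    · intro j hj
      rw [Finset.mem_compl, Finset.mem_map] at hj
      push Not at hj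
      rw [Tm_apply_not e z j (fun p => hj p (mem_univ _)), zero_add]

end copy

/-- the whole network -/
noncomputable def Phi {K : Type} [Fintype K] {d : ℕ} (e : J m × K ↪ Fin d)
    (A : Ad m → Ad m → ZMod 2) (ψ : Bt (Fin d) → ℂ) : Bt (I m) → ℂ :=
  fun y => ∑ z, if Rm z = y then csg (qA A z) * ψ (Tm e z + 1) else 0

lemma Phi_good {K : Type} [Fintype K] [DecidableEq K] {d : ℕ} (e : J m × K ↪ Fin d)
    (A : Ad m → Ad m → ZMod 2) {ψ : Bt (Fin d) → ℂ} (h : Good ψ) : Good (Phi e A ψ) :=
  Good.push ((h.pull (Tm e) (Ttm e) (Tm_adj e) 1).phase (qA A) (BA A) (qA_add A)) Rm Rtm Rm_adj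

lemma Phi_sum {K : Type} [Fintype K] {d : ℕ} (e : J m × K ↪ Fin d)
    (A : Ad m → Ad m → ZMod 2) {r : ℕ} (α : Fin r → ℂ) (t : Fin r → Bt (Fin d) → ℂ) :
    Phi e A (∑ i, α i • t i) = ∑ i, α i • Phi e A (t i) := by
  funext y
  rw [Finset.sum_apply]
  simp only [Phi, Pi.smul_apply, smul_eq_mul, Finset.mul_sum]
  rw [Finset.sum_comm]
  apply Finset.sum_congr rfl
  intro z _
  by_cases h : Rm z = y
  · simp only [h, if_true]
    rw [Finset.sum_apply, Finset.mul_sum]
    apply Finset.sum_congr rfl
    intro i _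
    simp only [Pi.smul_apply, smul_eq_mul]
    ring
  · simp [h]

/-- one-qubit amplitudes -/
noncomputable def am (ε : ℝ) (s : ZMod 2) : ℝ := if s = 0 then 1 else ε

/-- the amplitudes of the network applied to a product of nearly trivial states -/
noncomputable def GA (ε : ℝ) (A : Ad m → Ad m → ZMod 2) (y : Bt (I m)) : ℝ :=
  ∑ z : Bt (J m), if Rm z = y then sg (qA A z) * ∏ i, am ε (z i) else 0

/-- the output address of `(s, t)` -/
def yst (s t : Ad m) : Bt (I m) := Sum.elim (fun o => wt o s) (fun o => wt o t)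

/-- the one-hot string of `(s, t)` -/
def zst (s t : Ad m) : Bt (J m) := Sum.elim (Pi.single s 1) (Pi.single t 1)

lemma Rm_zst (s t : Ad m) : Rm (zst s t) = yst s t := by
  funext j
  rcases j with o | o
  · show ∑ s', (Pi.single s 1 : Ad m → ZMod 2) s' * wt o s' = wt o s
    rw [Finset.sum_eq_single s]
    · simp
    · intro s' _ hs'
      rw [Pi.single_eq_of_ne hs', zero_mul]
    · intro h; exact absurd (mem_univ _) h
  · show ∑ s', (Pi.single t 1 : Ad m → ZMod 2) s' * wt o s' = wt o t
    rw [Finset.sum_eq_single t]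
    · simp
    · intro s' _ hs'
      rw [Pi.single_eq_of_ne hs', zero_mul]
    · intro h; exact absurd (mem_univ _) h

lemma qA_zst (A : Ad m → Ad m → ZMod 2) (s t : Ad m) : qA A (zst s t) = A s t := by
  show ∑ s', ∑ t', A s' t' * (Pi.single s 1 : Ad m → ZMod 2) s' *
    (Pi.single t 1 : Ad m → ZMod 2) t' = A s t
  rw [Finset.sum_eq_single s]
  · rw [Finset.sum_eq_single t]
    · simp
    · intro s' _ hs'
      rw [Pi.single_eq_of_ne hs', mul_zero]
    · intro h; exact absurd (mem_univ _) h
  · intro s' _ hs'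
    apply Finset.sum_eq_zero
    intro t' _
    rw [Pi.single_eq_of_ne hs', mul_zero, zero_mul]
  · intro h; exact absurd (mem_univ _) h

lemma prod_am (ε : ℝ) {Q : Type} [Fintype Q] (z : Bt Q) :
    ∏ i, am ε (z i) = ε ^ (univ.filter fun i => z i ≠ 0).card := by
  rw [← Finset.prod_const, ← Finset.prod_filter_mul_prod_filter_not univ (fun i => z i ≠ 0)]
  rw [Finset.prod_congr rfl (g := fun _ => ε)]
  · rw [Finset.prod_congr (s₁ := univ.filter fun i => ¬ z i ≠ 0) rfl (g := fun _ => (1 : ℝ))]
    · simp
    · intro i hi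
      rw [mem_filter] at hi
      unfold am
      rw [if_pos (not_not.1 hi.2)]
  · intro i hi
    rw [mem_filter] at hi
    unfold am
    rw [if_neg hi.2]

lemma sum_prod_am (ε : ℝ) {Q : Type} [Fintype Q] [DecidableEq Q] :
    ∑ z : Bt Q, ∏ i, am ε (z i) = (1 + ε) ^ Fintype.card Q := by
  have h := Finset.prod_univ_sum (fun _ : Q => (univ : Finset (ZMod 2))) (fun _ s => am ε s)
  rw [Fintype.piFinset_univ] at h
  rw [← h]
  have h2 : ∑ s : ZMod 2, am ε s = 1 + ε := by
    have : (univ : Finset (ZMod 2)) = {0, 1} := by decide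
    rw [this, Finset.sum_pair (by decide)]
    simp [am]
  rw [Finset.prod_congr rfl (fun _ _ => h2), Finset.prod_const, Finset.card_univ]

lemma am_nonneg {ε : ℝ} (h : 0 ≤ ε) (s : ZMod 2) : 0 ≤ am ε s := by
  unfold am; split_ifs <;> [norm_num; exact h]

lemma zst_inl (s t j : Ad m) : zst s t (Sum.inl j) ≠ 0 ↔ j = s := by
  have h : zst s t (Sum.inl j) = (Pi.single s 1 : Ad m → ZMod 2) j := rfl
  rw [h]
  by_cases hj : j = s
  · subst hj; simp
  · rw [Pi.single_eq_of_ne hj]; simp [hj]

lemma zst_inr (s t j : Ad m) : zst s t (Sum.inr j) ≠ 0 ↔ j = t := by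
  have h : zst s t (Sum.inr j) = (Pi.single t 1 : Ad m → ZMod 2) j := rfl
  rw [h]
  by_cases hj : j = t
  · subst hj; simp
  · rw [Pi.single_eq_of_ne hj]; simp [hj]

lemma prod_zst (ε : ℝ) (s t : Ad m) : ∏ i, am ε (zst s t i) = ε ^ 2 := by
  rw [prod_am]
  have : (univ.filter fun i => zst s t i ≠ 0) = {Sum.inl s, Sum.inr t} := by
    ext j
    rw [mem_filter, mem_insert, mem_singleton]
    rcases j with j | j
    · rw [zst_inl]; simp
    · rw [zst_inr]; simp
  rw [this, Finset.card_pair (by simp)]

/-- other strings with the same output have weight at least three -/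
lemma weight_ge {s t : Ad m} {z : Bt (J m)} (hz : Rm z = yst s t) (hne : z ≠ zst s t) :
    3 ≤ (univ.filter fun i => z i ≠ 0).card := by
  by_contra hlt
  push Not at hlt
  -- both halves are nonzero
  have hl : ∑ s', z (Sum.inl s') * wt none s' = 1 := congrFun hz (Sum.inl none)
  have hr : ∑ s', z (Sum.inr s') * wt none s' = 1 := congrFun hz (Sum.inr none)
  obtain ⟨s', hs'⟩ : ∃ s', z (Sum.inl s') ≠ 0 := by
    by_contra h
    push Not at h
    simp [h] at hl
  obtain ⟨t', ht'⟩ : ∃ s', z (Sum.inr s') ≠ 0 := by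
    by_contra h
    push Not at h
    simp [h] at hr
  have hsub : ({Sum.inl s', Sum.inr t'} : Finset (J m)) ⊆ univ.filter fun i => z i ≠ 0 := by
    intro j hj
    rw [mem_insert, mem_singleton] at hj
    rw [mem_filter]
    rcases hj with rfl | rfl
    · exact ⟨mem_univ _, hs'⟩
    · exact ⟨mem_univ _, ht'⟩
  have hcard : ({Sum.inl s', Sum.inr t'} : Finset (J m)).card = 2 := by
    rw [Finset.card_pair]; simp
  have heq := Finset.eq_of_subset_of_card_le hsub (by rw [hcard]; omega)
  have hzz : z = zst s' t' := by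
    funext j
    have hj : j ∈ (univ.filter fun i => z i ≠ 0) ↔ j ∈ ({Sum.inl s', Sum.inr t'} : Finset (J m)) := by
      rw [heq]
    rw [mem_filter, mem_insert, mem_singleton] at hj
    rcases j with j | j
    · show z (Sum.inl j) = (Pi.single s' 1 : Ad m → ZMod 2) j
      by_cases h : j = s'
      · subst h
        rw [Pi.single_eq_same]
        rcases zmod2_cases (z (Sum.inl j)) with h | h
        · exact absurd h hs'
        · exact h
      · rw [Pi.single_eq_of_ne h]
        by_contra hh
        rcases hj.1 ⟨mem_univ _, hh⟩ with h1 | h1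
        · exact h (Sum.inl.inj h1)
        · exact absurd h1 (by simp)
    · show z (Sum.inr j) = (Pi.single t' 1 : Ad m → ZMod 2) j
      by_cases h : j = t'
      · subst h
        rw [Pi.single_eq_same]
        rcases zmod2_cases (z (Sum.inr j)) with h | h
        · exact absurd h ht'
        · exact h
      · rw [Pi.single_eq_of_ne h]
        by_contra hh
        rcases hj.1 ⟨mem_univ _, hh⟩ with h1 | h1
        · exact absurd h1 (by simp)
        · exact h (Sum.inr.inj h1)
  rw [hzz, Rm_zst] at hz
  have e1 : s' = s := by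
    funext i
    exact congrFun hz (Sum.inl (some i))
  have e2 : t' = t := by
    funext i
    exact congrFun hz (Sum.inr (some i))
  exact hne (by rw [hzz, e1, e2])

/-- **The sign of the amplitude at `(s, t)` is the sign of `A s t`.** -/
lemma GA_pos {ε : ℝ} (h0 : 0 < ε) (n : ℝ) (hn : n = (Fintype.card (J m) : ℝ))
    (hε : 3 * n ^ 3 * ε < 1) (A : Ad m → Ad m → ZMod 2) (s t : Ad m) :
    0 < sg (A s t) * GA ε A (yst s t) := by
  have hn1 : 1 ≤ n := by
    rw [hn]
    have : 0 < Fintype.card (J m) := Fintype.card_pos_iff.2 ⟨Sum.inl 0⟩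
    exact_mod_cast this
  have hnε : n * ε ≤ 1 := by
    have h1 : n ≤ n ^ 3 := by nlinarith [sq_nonneg (n - 1), sq_nonneg n]
    nlinarith [mul_le_mul_of_nonneg_right h1 h0.le]
  -- bound for one term
  have hterm : ∀ z : Bt (J m), 3 ≤ (univ.filter fun i => z i ≠ 0).card →
      ∏ i, am ε (z i) ≤ (n * ε) ^ 3 * ∏ i, am (1 / n) (z i) := by
    intro z hz
    rw [prod_am, prod_am]
    set w := (univ.filter fun i => z i ≠ 0).card
    have h1 : ε ^ w = (n * ε) ^ w * (1 / n) ^ w := by
      rw [← mul_pow]
      congr 1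
      field_simp
    rw [h1]
    apply mul_le_mul_of_nonneg_right _ (by positivity)
    exact pow_le_pow_of_le_one (by positivity) hnε hz
  have hsum : ∑ z ∈ univ.filter (fun z : Bt (J m) => 3 ≤ (univ.filter fun i => z i ≠ 0).card),
      ∏ i, am ε (z i) ≤ 3 * (n * ε) ^ 3 := by
    calc ∑ z ∈ univ.filter (fun z : Bt (J m) => 3 ≤ (univ.filter fun i => z i ≠ 0).card),
          ∏ i, am ε (z i)
        ≤ ∑ z ∈ univ.filter (fun z : Bt (J m) => 3 ≤ (univ.filter fun i => z i ≠ 0).card),
          (n * ε) ^ 3 * ∏ i, am (1 / n) (z i) := by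
          apply Finset.sum_le_sum
          intro z hz
          rw [mem_filter] at hz
          exact hterm z hz.2
      _ ≤ ∑ z : Bt (J m), (n * ε) ^ 3 * ∏ i, am (1 / n) (z i) := by
          apply Finset.sum_le_sum_of_subset_of_nonneg (Finset.filter_subset _ _)
          intro z _ _
          apply mul_nonneg (by positivity)
          apply Finset.prod_nonneg
          intro i _
          exact am_nonneg (by positivity) _
      _ = (n * ε) ^ 3 * (1 + 1 / n) ^ Fintype.card (J m) := by
          rw [← Finset.mul_sum, sum_prod_am]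
      _ ≤ (n * ε) ^ 3 * 3 := by
          apply mul_le_mul_of_nonneg_left _ (by positivity)
          have h1 : 1 + 1 / n ≤ Real.exp (1 / n) := by
            have := Real.add_one_le_exp (1 / n); linarith
          calc (1 + 1 / n) ^ Fintype.card (J m) ≤ (Real.exp (1 / n)) ^ Fintype.card (J m) :=
                pow_le_pow_left₀ (by positivity) h1 _
            _ = Real.exp 1 := by
                rw [← Real.exp_nat_mul]
                congr 1
                rw [← hn]
                field_simp
            _ ≤ 3 := by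
                have := Real.exp_one_lt_d9; linarith
      _ = 3 * (n * ε) ^ 3 := by ring
  -- split off the main term
  have hsplit : GA ε A (yst s t) = sg (A s t) * ε ^ 2 +
      ∑ z ∈ univ.erase (zst s t), if Rm z = yst s t then sg (qA A z) * ∏ i, am ε (z i) else 0 := by
    unfold GA
    rw [← Finset.add_sum_erase _ _ (mem_univ (zst s t)), if_pos (Rm_zst s t), qA_zst, prod_zst]
  have habs : |∑ z ∈ univ.erase (zst s t),
      if Rm z = yst s t then sg (qA A z) * ∏ i, am ε (z i) else 0| ≤ 3 * (n * ε) ^ 3 := by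
    refine (Finset.abs_sum_le_sum_abs _ _).trans (le_trans ?_ hsum)
    rw [← Finset.sum_filter_add_sum_filter_not (univ.erase (zst s t))
      (fun z : Bt (J m) => 3 ≤ (univ.filter fun i => z i ≠ 0).card)]
    have hz2 : ∑ z ∈ (univ.erase (zst s t)).filter
        (fun z : Bt (J m) => ¬ 3 ≤ (univ.filter fun i => z i ≠ 0).card),
        |if Rm z = yst s t then sg (qA A z) * ∏ i, am ε (z i) else 0| = 0 := by
      apply Finset.sum_eq_zero
      intro z hz
      rw [mem_filter, mem_erase] at hz
      by_cases h : Rm z = yst s t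
      · exact absurd (weight_ge h hz.1.1) hz.2
      · rw [if_neg h, abs_zero]
    rw [hz2, add_zero]
    calc ∑ z ∈ (univ.erase (zst s t)).filter
          (fun z : Bt (J m) => 3 ≤ (univ.filter fun i => z i ≠ 0).card),
          |if Rm z = yst s t then sg (qA A z) * ∏ i, am ε (z i) else 0|
        ≤ ∑ z ∈ (univ.erase (zst s t)).filter
          (fun z : Bt (J m) => 3 ≤ (univ.filter fun i => z i ≠ 0).card),
          ∏ i, am ε (z i) := by
          apply Finset.sum_le_sum
          intro z _
          have hp : 0 ≤ ∏ i, am ε (z i) := Finset.prod_nonneg fun i _ => am_nonneg h0.le _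
          by_cases h : Rm z = yst s t
          · rw [if_pos h, abs_mul, abs_of_nonneg hp]
            have : |sg (qA A z)| = 1 := by
              unfold sg; split_ifs <;> simp
            rw [this, one_mul]
          · rw [if_neg h, abs_zero]; exact hp
      _ ≤ _ := by
          apply Finset.sum_le_sum_of_subset_of_nonneg
          · intro z hz
            rw [mem_filter] at hz ⊢
            exact ⟨mem_univ _, hz.2⟩
          · intro z _ _
            exact Finset.prod_nonneg fun i _ => am_nonneg h0.le _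
  have hlt : 3 * (n * ε) ^ 3 < ε ^ 2 := by
    have h1 : 3 * (n * ε) ^ 3 = (3 * n ^ 3 * ε) * ε ^ 2 := by ring
    rw [h1]
    have h2 : 0 < ε ^ 2 := by positivity
    nlinarith
  rw [hsplit, mul_add, ← mul_assoc, sg_mul_self, one_mul]
  set E := ∑ z ∈ univ.erase (zst s t),
      if Rm z = yst s t then sg (qA A z) * ∏ i, am ε (z i) else 0
  have hE : |sg (A s t) * E| ≤ 3 * (n * ε) ^ 3 := by
    rw [abs_mul]
    have : |sg (A s t)| = 1 := by
      unfold sg; split_ifs <;> simp
    rw [this, one_mul]
    exact habs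
  have := neg_abs_le (sg (A s t) * E)
  linarith

end Pool.Agent.N591.SR
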