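import Pool.Agent.N591.SR.Defs
import Pool.Agent.N591.SR.Count

/-!
# Stabilizer states are good functions

The definitions of `Defs.lean` are repeated with `ZMod 2` in place of the (definitionally equal)
type `Fin 2`.
-/

open Finset Matrix

namespace Pool.Agent.N591.SR

namespace Zv

abbrev V (d : ℕ) : Type := (Fin d → ZMod 2) → ℂ

abbrev Op (d : ℕ) : Type := Matrix (Fin d → ZMod 2) (Fin d → ZMod 2) ℂ

def mX : Matrix (ZMod 2) (ZMod 2) ℂ := (!![0, 1; 1, 0] : Matrix (Fin 2) (Fin 2) ℂ)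

def mY : Matrix (ZMod 2) (ZMod 2) ℂ :=
  (!![0, -Complex.I; Complex.I, 0] : Matrix (Fin 2) (Fin 2) ℂ)

def mZ : Matrix (ZMod 2) (ZMod 2) ℂ := (!![1, 0; 0, -1] : Matrix (Fin 2) (Fin 2) ℂ)

noncomputable def P1 : Subgroup (GL (ZMod 2) ℂ) :=
  Subgroup.closure {g | (g : Matrix (ZMod 2) (ZMod 2) ℂ) = mX ∨
    (g : Matrix (ZMod 2) (ZMod 2) ℂ) = mY ∨
    (g : Matrix (ZMod 2) (ZMod 2) ℂ) = mZ}

def tensorOp {d : ℕ} (g : Fin d → Matrix (ZMod 2) (ZMod 2) ℂ) : Op d :=
  Matrix.of fun x y => ∏ i, g i (x i) (y i)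

def Pauli (d : ℕ) : Set (Op d) :=
  {M | ∃ g : Fin d → GL (ZMod 2) ℂ, (∀ i, g i ∈ P1) ∧
    M = tensorOp fun i => (g i : Matrix (ZMod 2) (ZMod 2) ℂ)}

def Clifford (d : ℕ) : Set (Op d) :=
  {U | U ∈ Matrix.unitaryGroup (Fin d → ZMod 2) ℂ ∧
    (fun M : Op d => U * M * Uᴴ) '' Pauli d = Pauli d}

def Stab (d : ℕ) : Set (V d) :=
  {ψ | ∃ U ∈ Clifford d, ψ = U.mulVec (Pi.single 0 1)}

/-- the matrix of a Pauli operator times a scalar -/
noncomputable def wM {ι : Type} [Fintype ι] [DecidableEq ι] (c : ℂ) (a b : Bt ι) :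
    Matrix (Bt ι) (Bt ι) ℂ :=
  Matrix.of fun x y => if y = x + a then c * csg (b ⬝ᵥ x) else 0

/-- the 2 x 2 version -/
noncomputable def w1 (c : ℂ) (a b : ZMod 2) : Matrix (ZMod 2) (ZMod 2) ℂ :=
  Matrix.of fun (x y : ZMod 2) => if y = x + a then c * csg (b * x) else 0

lemma w1_apply (c : ℂ) (a b : ZMod 2) (x y : ZMod 2) :
    w1 c a b x y = if y = x + a then c * csg (b * x) else 0 := rfl

lemma w1_mul (c a b c' a' b' ) : w1 c a b * w1 c' a' b' =
    w1 (c * c' * csg (b' * a)) (a + a') (b + b') := by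
  ext x z
  rw [Matrix.mul_apply]
  rw [Finset.sum_eq_single (x + a)]
  · rw [w1_apply, w1_apply, w1_apply, if_pos rfl]
    by_cases h : z = x + (a + a')
    · rw [if_pos h, if_pos (by rw [h, add_assoc]), mul_add, csg_add, add_mul, csg_add]
      ring
    · rw [if_neg h, if_neg (by rw [add_assoc]; exact h), mul_zero]
  · intro y _ hy
    rw [w1_apply, if_neg hy, zero_mul]
  · intro h
    exact absurd (mem_univ _) h

lemma w1_one : w1 1 0 0 = 1 := by
  ext x y
  rw [w1_apply, Matrix.one_apply]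
  rw [zero_mul, csg_zero, add_zero, mul_one]
  by_cases h : x = y
  · rw [if_pos h.symm, if_pos h]
  · rw [if_neg (fun hh => h hh.symm), if_neg h]

lemma X_eq : mX = w1 1 1 0 := by
  ext x y
  rw [w1_apply, zero_mul, csg_zero, mul_one]
  rcases zmod2_cases x with rfl | rfl <;> rcases zmod2_cases y with rfl | rfl
  · rw [if_neg (by decide)]; rfl
  · rw [if_pos (by decide)]; rfl
  · rw [if_pos (by decide)]; rfl
  · rw [if_neg (by decide)]; rfl

lemma Z_eq : mZ = w1 1 0 1 := by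
  ext x y
  rw [w1_apply, one_mul, one_mul]
  rcases zmod2_cases x with rfl | rfl <;> rcases zmod2_cases y with rfl | rfl
  · rw [if_pos (by decide), csg_zero]; rfl
  · rw [if_neg (by decide)]; rfl
  · rw [if_neg (by decide)]; rfl
  · rw [if_pos (by decide), csg_one]; rfl

lemma Y_eq : mY = w1 (-Complex.I) 1 1 := by
  ext x y
  rw [w1_apply, one_mul]
  rcases zmod2_cases x with rfl | rfl <;> rcases zmod2_cases y with rfl | rfl
  · rw [if_neg (by decide)]; rfl
  · rw [if_pos (by decide), csg_zero, mul_one]; rfl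
  · rw [if_pos (by decide), csg_one, mul_neg, mul_one, neg_neg]; rfl
  · rw [if_neg (by decide)]; rfl

/-- elements of `P_1` -/
lemma mem_P1 {g : GL (ZMod 2) ℂ} (hg : g ∈ P1) :
    ∃ (c : ℂ) (a b : ZMod 2), c ≠ 0 ∧ (g : Matrix (ZMod 2) (ZMod 2) ℂ) = w1 c a b := by
  induction hg using Subgroup.closure_induction with
  | mem x hx =>
    rcases hx with h | h | h
    · exact ⟨1, 1, 0, one_ne_zero, by rw [h, X_eq]⟩
    · exact ⟨-Complex.I, 1, 1, by simp, by rw [h, Y_eq]⟩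
    · exact ⟨1, 0, 1, one_ne_zero, by rw [h, Z_eq]⟩
  | one => exact ⟨1, 0, 0, one_ne_zero, by rw [w1_one]; rfl⟩
  | mul x y _ _ hx hy =>
    obtain ⟨c, a, b, hc, hx⟩ := hx
    obtain ⟨c', a', b', hc', hy⟩ := hy
    exact ⟨_, _, _, mul_ne_zero (mul_ne_zero hc hc') (csg_ne _), by
      rw [Units.val_mul, hx, hy, w1_mul]⟩
  | inv x _ hx =>
    obtain ⟨c, a, b, hc, hx⟩ := hx
    refine ⟨c⁻¹ * csg (b * a), a, b, mul_ne_zero (inv_ne_zero hc) (csg_ne _), ?_⟩
    have h1 : (x : Matrix (ZMod 2) (ZMod 2) ℂ) * w1 (c⁻¹ * csg (b * a)) a b = 1 := by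
      rw [hx, w1_mul, ← w1_one]
      have e : ∀ s : ZMod 2, s + s = 0 := by decide
      rw [e, e]
      congr 1
      have := csg_mul_self (b * a)
      field_simp
      linear_combination this
    have h2 := congrArg (fun M => ((x⁻¹ : GL (ZMod 2) ℂ) : Matrix (ZMod 2) (ZMod 2) ℂ) * M) h1
    simp only [← mul_assoc, mul_one] at h2
    rw [← Units.val_mul, inv_mul_cancel, Units.val_one, one_mul] at h2
    exact h2.symm

lemma tensorOp_w1 {d : ℕ} (c : Fin d → ℂ) (a b : Fin d → ZMod 2) :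
    tensorOp (fun i => w1 (c i) (a i) (b i)) = wM (∏ i, c i) a b := by
  ext x y
  show ∏ i, w1 (c i) (a i) (b i) (x i) (y i) = if (y : Bt (Fin d)) = (x : Bt (Fin d)) + a then
    (∏ i, c i) * csg (b ⬝ᵥ (x : Bt (Fin d))) else 0
  by_cases h : (y : Bt (Fin d)) = (x : Bt (Fin d)) + a
  · rw [if_pos h]
    have h1 : ∀ i, w1 (c i) (a i) (b i) (x i) (y i) = c i * csg (b i * x i) := by
      intro i
      have h2 : y i = x i + a i := congrFun h i
      rw [w1_apply, if_pos h2]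
    rw [Finset.prod_congr rfl (fun i _ => h1 i), Finset.prod_mul_distrib]
    congr 1
    have h2 : ∀ (s : Finset (Fin d)) (f : Fin d → ZMod 2), ∏ i ∈ s, csg (f i) = csg (∑ i ∈ s, f i) := by
      intro s f
      induction s using Finset.induction_on with
      | empty => simp [csg_zero]
      | insert i s hi ih => rw [Finset.prod_insert hi, Finset.sum_insert hi, csg_add, ih]
    rw [h2]
    rfl
  · rw [if_neg h]
    obtain ⟨i, hi⟩ : ∃ i, y i ≠ (x i : ZMod 2) + a i := by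
      by_contra hh
      push Not at hh
      exact h (funext hh)
    apply Finset.prod_eq_zero (mem_univ i)
    rw [w1_apply, if_neg hi]

lemma tensorOp_mul {d : ℕ} (g h : Fin d → Matrix (ZMod 2) (ZMod 2) ℂ) :
    tensorOp g * tensorOp h = tensorOp (fun i => g i * h i) := by
  ext x z
  rw [Matrix.mul_apply]
  show ∑ y : Fin d → ZMod 2, (∏ i, g i (x i) (y i)) * (∏ i, h i (y i) (z i)) =
    ∏ i, (g i * h i) (x i) (z i)
  simp_rw [Matrix.mul_apply]
  rw [Finset.prod_univ_sum]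
  simp only [Fintype.piFinset_univ]
  apply Finset.sum_congr rfl
  intro y _
  rw [Finset.prod_mul_distrib]

lemma tensorOp_one {d : ℕ} : tensorOp (fun _ : Fin d => (1 : Matrix (ZMod 2) (ZMod 2) ℂ)) = 1 := by
  ext x y
  show ∏ i, (1 : Matrix (ZMod 2) (ZMod 2) ℂ) (x i) (y i) = (1 : Op d) x y
  rw [Matrix.one_apply]
  by_cases h : x = y
  · rw [if_pos h, h]; simp
  · rw [if_neg h]
    obtain ⟨i, hi⟩ : ∃ i, x i ≠ y i := by
      by_contra hh
      push Not at hh
      exact h (funext hh)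
    apply Finset.prod_eq_zero (mem_univ i)
    rw [Matrix.one_apply, if_neg hi]

lemma tensorOp_conjTranspose {d : ℕ} (g : Fin d → Matrix (ZMod 2) (ZMod 2) ℂ) :
    (tensorOp g)ᴴ = tensorOp (fun i => (g i)ᴴ) := by
  ext x y
  show star (∏ i, g i (y i) (x i)) = ∏ i, star (g i (y i) (x i))
  simp

/-- elements of `P_d` -/
lemma mem_Pauli {d : ℕ} {M : Op d} (hM : M ∈ Pauli d) :
    ∃ (c : ℂ) (a b : Bt (Fin d)), c ≠ 0 ∧ M = wM c a b := by
  obtain ⟨g, hg, rfl⟩ := hM
  choose c a b hc hw using fun i => mem_P1 (hg i)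
  refine ⟨∏ i, c i, a, b, Finset.prod_ne_zero_iff.2 fun i _ => hc i, ?_⟩
  rw [← tensorOp_w1]
  congr 1
  funext i
  exact hw i

/-- `X` and `Z` as elements of `P_1` -/
lemma exists_X : ∃ g : GL (ZMod 2) ℂ, g ∈ P1 ∧ (g : Matrix (ZMod 2) (ZMod 2) ℂ) = w1 1 1 0 := by
  have h : w1 1 1 0 * w1 1 1 0 = 1 := by
    rw [w1_mul, ← w1_one]
    have e : ∀ s : ZMod 2, s + s = 0 := by decide
    rw [e, e, zero_mul, csg_zero]; simp
  refine ⟨⟨w1 1 1 0, w1 1 1 0, h, h⟩, Subgroup.subset_closure (Or.inl ?_), rfl⟩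
  exact X_eq.symm

lemma exists_Z : ∃ g : GL (ZMod 2) ℂ, g ∈ P1 ∧ (g : Matrix (ZMod 2) (ZMod 2) ℂ) = w1 1 0 1 := by
  have h : w1 1 0 1 * w1 1 0 1 = 1 := by
    rw [w1_mul, ← w1_one]
    have e : ∀ s : ZMod 2, s + s = 0 := by decide
    rw [e, e, mul_zero, csg_zero]; simp
  refine ⟨⟨w1 1 0 1, w1 1 0 1, h, h⟩, Subgroup.subset_closure (Or.inr (Or.inr ?_)), rfl⟩
  exact Z_eq.symm

lemma wM_Z_mem {d : ℕ} (b : Bt (Fin d)) : wM 1 0 b ∈ Pauli d := by
  obtain ⟨gZ, hZ, eZ⟩ := exists_Z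
  refine ⟨fun i => if b i = 0 then 1 else gZ, ?_, ?_⟩
  · intro i
    by_cases h : b i = 0
    · simp only [h, if_true]; exact Subgroup.one_mem _
    · simp only [h, if_false]; exact hZ
  · have h1 := tensorOp_w1 (fun _ : Fin d => (1 : ℂ)) 0 b
    rw [Finset.prod_const_one] at h1
    rw [← h1]
    congr 1
    funext i
    rcases zmod2_cases (b i) with h | h
    · simp only [h, if_true, Pi.zero_apply]
      rw [w1_one]; rfl
    · have h0 : (1 : ZMod 2) ≠ 0 := by decide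
      simp only [h, if_neg h0, Pi.zero_apply]
      rw [eZ]

lemma wM_X_mem {d : ℕ} (a : Bt (Fin d)) : wM 1 a 0 ∈ Pauli d := by
  obtain ⟨gX, hX, eX⟩ := exists_X
  refine ⟨fun i => if a i = 0 then 1 else gX, ?_, ?_⟩
  · intro i
    by_cases h : a i = 0
    · simp only [h, if_true]; exact Subgroup.one_mem _
    · simp only [h, if_false]; exact hX
  · have h1 := tensorOp_w1 (fun _ : Fin d => (1 : ℂ)) a 0
    rw [Finset.prod_const_one] at h1
    rw [← h1]
    congr 1
    funext i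
    rcases zmod2_cases (a i) with h | h
    · simp only [h, if_true, Pi.zero_apply]
      rw [w1_one]; rfl
    · have h0 : (1 : ZMod 2) ≠ 0 := by decide
      simp only [h, if_neg h0, Pi.zero_apply]
      rw [eX]

lemma wM_mulVec {ι : Type} [Fintype ι] [DecidableEq ι] (c : ℂ) (a b : Bt ι) (ψ : Bt ι → ℂ)
    (x : Bt ι) : (wM c a b).mulVec ψ x = c * csg (b ⬝ᵥ x) * ψ (x + a) := by
  show ∑ y, (if y = x + a then c * csg (b ⬝ᵥ x) else 0) * ψ y = _
  rw [Finset.sum_eq_single (x + a)]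
  · rw [if_pos rfl]
  · intro y _ hy
    rw [if_neg hy, zero_mul]
  · intro h
    exact absurd (mem_univ _) h

/-- **Stabilizer states are good.** -/
theorem Stab.good {d : ℕ} {ψ : V d} (h : ψ ∈ Stab d) : Good (ι := Fin d) ψ := by
  obtain ⟨U, ⟨hU, hUn⟩, rfl⟩ := h
  have hU1 : Uᴴ * U = 1 := (Matrix.mem_unitaryGroup_iff'.1 hU)
  have hU2 : U * Uᴴ = 1 := (Matrix.mem_unitaryGroup_iff.1 hU)
  set e0 : V d := Pi.single 0 1 with he0
  -- conjugates of the `Z^b`
  have h1 : ∀ b : Bt (Fin d), ∃ (c : ℂ) (a' b' : Bt (Fin d)), c ≠ 0 ∧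
      U * wM 1 0 b * Uᴴ = wM c a' b' := by
    intro b
    apply mem_Pauli
    rw [← hUn]
    exact ⟨wM 1 0 b, wM_Z_mem b, rfl⟩
  choose c a' b' hc hw using h1
  have hZ : ∀ b : Bt (Fin d), (wM 1 0 b).mulVec e0 = e0 := by
    intro b
    funext x
    rw [wM_mulVec, add_zero, one_mul]
    by_cases hx : x = 0
    · subst hx
      have : b ⬝ᵥ (0 : Bt (Fin d)) = 0 := dotProduct_zero b
      rw [this, csg_zero, one_mul]
    · rw [he0, Pi.single_eq_of_ne hx, mul_zero]
  have hmem : ∀ b, ((a' b, b' b) : Bt (Fin d) × Bt (Fin d)) ∈ Lg (ι := Fin d) (U.mulVec e0) := by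
    intro b
    refine ⟨(c b)⁻¹, fun x => ?_⟩
    have h2 : (wM (c b) (a' b) (b' b)).mulVec (U.mulVec e0) = U.mulVec e0 := by
      rw [← hw b, Matrix.mulVec_mulVec, Matrix.mul_assoc, hU1, Matrix.mul_one,
        ← Matrix.mulVec_mulVec, hZ]
    have h3 := congrFun h2 x
    rw [wM_mulVec] at h3
    have hcb := hc b
    field_simp
    linear_combination h3
  -- injectivity
  let f : Bt (Fin d) → Lg (ι := Fin d) (U.mulVec e0) := fun b => ⟨(a' b, b' b), hmem b⟩
  have hf : Function.Injective f := by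
    intro b1 b2 hb
    have h4 := congrArg Subtype.val hb
    simp only [f, Prod.mk.injEq] at h4
    obtain ⟨h5, h6⟩ := h4
    have hback : ∀ b, wM 1 0 b = Uᴴ * wM (c b) (a' b) (b' b) * U := by
      intro b
      rw [← hw b]
      calc wM 1 0 b = (Uᴴ * U) * wM 1 0 b * (Uᴴ * U) := by rw [hU1]; simp
        _ = Uᴴ * (U * wM 1 0 b * Uᴴ) * U := by simp only [Matrix.mul_assoc]
    have hsm : wM (c b1) (a' b1) (b' b1) = (c b1 / c b2) • wM (c b2) (a' b2) (b' b2) := by
      rw [h5, h6]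
      ext x y
      show (if y = x + a' b2 then c b1 * csg (b' b2 ⬝ᵥ x) else 0) = (c b1 / c b2) *
        (if y = x + a' b2 then c b2 * csg (b' b2 ⬝ᵥ x) else 0)
      have := hc b2
      split_ifs
      · field_simp
      · simp
    have h7 : wM 1 0 b1 = (c b1 / c b2) • wM 1 0 b2 := by
      rw [hback b1, hback b2, hsm]
      simp
    have h8 : ∀ x : Bt (Fin d), csg (b1 ⬝ᵥ x) = (c b1 / c b2) * csg (b2 ⬝ᵥ x) := by
      intro x
      have := congrFun (congrFun h7 x) x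
      have h9 : (if x = x + 0 then (1 : ℂ) * csg (b1 ⬝ᵥ x) else 0) = (c b1 / c b2) *
        (if x = x + 0 then (1 : ℂ) * csg (b2 ⬝ᵥ x) else 0) := this
      rw [if_pos (add_zero x).symm, if_pos (add_zero x).symm, one_mul, one_mul] at h9
      exact h9
    have h9 := h8 0
    rw [dotProduct_zero, dotProduct_zero, csg_zero, mul_one] at h9
    funext i
    have h10 := h8 (Pi.single i 1)
    rw [← h9, one_mul, dotProduct_single, dotProduct_single, mul_one, mul_one] at h10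
    exact csg_inj h10
  have h11 := Nat.card_le_card_of_injective f hf
  have h12 : Nat.card (Bt (Fin d)) = 2 ^ Fintype.card (Fin d) := by
    rw [Nat.card_eq_fintype_card]; simp
  rw [h12] at h11
  exact h11

/-- Pauli operators are Clifford operators -/
lemma wM_X_clifford {d : ℕ} (a : Bt (Fin d)) : (wM 1 a 0 : Op d) ∈ Clifford d := by
  obtain ⟨g, hg, hM⟩ := wM_X_mem a
  -- square is one, self-adjoint
  have hsq : (wM 1 a 0 : Op d) * wM 1 a 0 = 1 := by
    have h1 := tensorOp_w1 (fun _ : Fin d => (1 : ℂ)) a 0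
    rw [Finset.prod_const_one] at h1
    rw [← h1, tensorOp_mul, ← tensorOp_one]
    congr 1
    funext i
    rw [w1_mul, ← w1_one]
    have e : ∀ s : ZMod 2, s + s = 0 := by decide
    rw [e, e, Pi.zero_apply, zero_mul, csg_zero]; simp
  have hsa : (wM 1 a 0 : Op d)ᴴ = wM 1 a 0 := by
    ext x y
    show star (if x = y + a then (1 : ℂ) * csg ((0 : Bt (Fin d)) ⬝ᵥ y) else 0) =
      if y = x + a then (1 : ℂ) * csg ((0 : Bt (Fin d)) ⬝ᵥ x) else 0
    rw [zero_dotProduct, zero_dotProduct, csg_zero]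
    by_cases h : x = y + a
    · have h' : y = x + a := by rw [h, add_assoc, add_self_bt, add_zero]
      rw [if_pos h, if_pos h']; simp
    · have h' : ¬ y = x + a := by
        intro hh
        apply h
        rw [hh, add_assoc, add_self_bt, add_zero]
      rw [if_neg h, if_neg h']; simp
  refine ⟨?_, ?_⟩
  · rw [Matrix.mem_unitaryGroup_iff]
    show wM 1 a 0 * (wM 1 a 0)ᴴ = 1
    rw [hsa, hsq]
  · have hconj : ∀ M ∈ Pauli d, (wM 1 a 0 : Op d) * M * (wM 1 a 0)ᴴ ∈ Pauli d := by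
      rintro M ⟨k, hk, rfl⟩
      rw [hsa, hM, tensorOp_mul, tensorOp_mul]
      refine ⟨fun i => g i * k i * g i, fun i => Subgroup.mul_mem _ (Subgroup.mul_mem _ (hg i) (hk i)) (hg i), ?_⟩
      congr 1
    apply Set.Subset.antisymm
    · rintro _ ⟨M, hM', rfl⟩
      exact hconj M hM'
    · intro M hM'
      refine ⟨wM 1 a 0 * M * (wM 1 a 0)ᴴ, hconj M hM', ?_⟩
      show wM 1 a 0 * (wM 1 a 0 * M * (wM 1 a 0)ᴴ) * (wM 1 a 0)ᴴ = M
      rw [hsa]
      calc wM 1 a 0 * (wM 1 a 0 * M * wM 1 a 0) * wM 1 a 0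
          = (wM 1 a 0 * wM 1 a 0) * M * (wM 1 a 0 * wM 1 a 0) := by
            simp only [Matrix.mul_assoc]
        _ = M := by rw [hsq]; simp

/-- the basis vectors are stabilizer states -/
lemma single_stab {d : ℕ} (a : Fin d → ZMod 2) : (Pi.single a 1 : V d) ∈ Stab d := by
  refine ⟨wM 1 a 0, wM_X_clifford a, ?_⟩
  funext x
  rw [wM_mulVec]
  rw [zero_dotProduct, csg_zero, one_mul, one_mul]
  by_cases h : x = a
  · subst h
    have : (x : Bt (Fin d)) + x = 0 := add_self_bt _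
    rw [this]
    simp
  · rw [Pi.single_eq_of_ne h, Pi.single_eq_of_ne]
    intro hh
    apply h
    have h1 := congrArg (fun y : Bt (Fin d) => y + a) hh
    simp only [add_assoc, add_self_bt, add_zero] at h1
    have h2 : (x : Bt (Fin d)) = 0 + a := h1
    rw [zero_add] at h2
    exact h2

/-- every vector has a stabilizer decomposition -/
lemma exists_decomp {d : ℕ} (T : V d) : ∃ r : ℕ, ∃ (α : Fin r → ℂ) (t : Fin r → V d),
    (∀ i, t i ∈ Stab d) ∧ T = ∑ i, α i • t i := by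
  let e := (Fintype.equivFin (Fin d → ZMod 2)).symm
  refine ⟨_, fun i => T (e i), fun i => Pi.single (e i) 1, fun i => single_stab _, ?_⟩
  rw [Equiv.sum_comp e (fun x => T x • (Pi.single x 1 : V d))]
  funext x
  rw [Finset.sum_apply]
  simp [Pi.single_apply]

end Zv

theorem Stab_eq (d : ℕ) : Stab d = Zv.Stab d := rfl

/-- **Stabilizer states are good.** -/
theorem Stab.good {d : ℕ} {ψ : V d} (h : ψ ∈ Stab d) : Good (ι := Fin d) ψ :=
  Zv.Stab.good (Stab_eq d ▸ h)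

lemma exists_decomp {d : ℕ} (T : V d) : ∃ r : ℕ, ∃ (α : Fin r → ℂ) (t : Fin r → V d),
    (∀ i, t i ∈ Stab d) ∧ T = ∑ i, α i • t i := Zv.exists_decomp T

/-- the minimum in the definition of `stabR` is attained -/
lemma stabR_spec {d : ℕ} (T : V d) : ∃ (α : Fin (stabR T) → ℂ) (t : Fin (stabR T) → V d),
    (∀ i, t i ∈ Stab d) ∧ T = ∑ i, α i • t i :=
  Nat.sInf_mem (exists_decomp T)

end Pool.Agent.N591.SR
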